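import Pool.Agent.Lib.FGP.Stmts

/-!
# Theorem L on pairs: all the vertices of a configuration lie in one class
-/

set_option autoImplicit false

namespace Pool.Agent.Lib.FGP

open Finset Classical
open Pool.Agent.Lib.FracGS (nb wnb om TAdj)
open Pool.Agent.Lib.GSR3 (Stab Tree)
open Pool.Agent.Lib.FGL (aw Dw lk mt Conf root WN wv rn HN hv lev hr kw prb Top Clean)

/-- The parts of a configuration of positive weight. -/
theorem cwp_succ_ne {M : ℕ} {V : Type} [Fintype V] {Gs : ℕ → SimpleGraph V} {W : Finset V}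
    {μ : V → ℝ} {q : ℕ → V → ℝ} {d : ℕ} {x : Conf M V (d + 1)}
    (hx : cwp Gs W μ q M (d + 1) x ≠ 0) :
    q d x.1 ≠ 0 ∧ ∀ e, cwp Gs W μ q M d (x.2 e) ≠ 0 ∧ (Gs d).Adj x.1 (root d (x.2 e)) := by
  have hxe : cwp Gs W μ q M (d + 1) x = q d x.1 * Dw (Gs d) W μ (q d) x.1 *
      ∏ e, kw (Gs d) W μ (q d) (root d) (cwp Gs W μ q M d) x.1 (x.2 e) := rfl
  rw [hxe] at hx
  have hkw : ∀ e, kw (Gs d) W μ (q d) (root d) (cwp Gs W μ q M d) x.1 (x.2 e) ≠ 0 := fun e =>
    Finset.prod_ne_zero_iff.1 (right_ne_zero_of_mul hx) e (Finset.mem_univ e)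
  refine ⟨left_ne_zero_of_mul (left_ne_zero_of_mul hx), fun e => ⟨fun h3 => ?_, ?_⟩⟩
  · apply hkw e
    unfold kw
    rw [h3, zero_mul, zero_div]
  · by_contra h3
    apply hkw e
    unfold kw
    rw [if_neg h3, mul_zero, zero_div]

/-- Module `PCls`. -/
theorem stPCls : StPCls := by
  intro M V ι _ G p W μ q j d
  induction d with
  | zero =>
    intro _ _ x _
    exact ⟨fun u => rfl, fun h => h.elim⟩
  | succ d ih =>
    intro hd href x hx
    obtain ⟨-, h1⟩ := cwp_succ_ne hx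
    have ih' := fun e => ih (Nat.le_of_succ_le hd) href (x.2 e) (h1 e).1
    have h2 : ∀ e, p j x.1 = p j (root d (x.2 e)) := fun e =>
      href d j hd le_rfl _ _ (h1 e).2.2
    have h3 : ∀ e, p j (root d (x.2 e)) = p j (root (d + 1) x) := fun e => (h2 e).symm.trans (h2 0)
    refine ⟨fun u => ((ih' u.1).1 u.2).trans (h3 u.1), fun h => ?_⟩
    cases h with
    | none => exact h2 0
    | some h => exact ((ih' h.1).2 h.2).trans (h3 h.1)

end Pool.Agent.Lib.FGP
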