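import Pool.Agent.Lib.FGJ.LDefs

/-!
# Theorem L on pairs (definitions)

As in `FGJ.LDefs`, but the stages only see the edges inside the classes of a partition of the
vertices which depends on the stage and gets finer for later stages.  The vertices are meant to be
pairs (history, vertex) and the classes are given by the part of the history before the stage.
Small levels are inner (late stages), large levels are outer (early stages).
-/

set_option autoImplicit false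

namespace Pool.Agent.Lib.FGP

open Finset Classical
open Pool.Agent.Lib.FracGS (nb wnb om TAdj)
open Pool.Agent.Lib.GSR3 (Stab Tree)
open Pool.Agent.Lib.FGL (aw Dw lk mt Conf root WN wv rn HN hv lev hr kw prb Top Clean)

/-- The edges of `G` inside the classes of `p`. -/
def gp {V ι : Type} (G : SimpleGraph V) (p : V → ι) : SimpleGraph V where
  Adj x y := G.Adj x y ∧ p x = p y
  symm := ⟨fun _ _ h => ⟨h.1.symm, h.2.symm⟩⟩
  loopless := ⟨fun _ h => G.irrefl h.1⟩

/-- The law of the random configuration of depth `d`; level `i` uses the graph `Gs i`. -/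
noncomputable def cwp {V : Type} [Fintype V] (Gs : ℕ → SimpleGraph V) (W : Finset V) (μ : V → ℝ)
    (q : ℕ → V → ℝ) (M : ℕ) : (d : ℕ) → Conf M V d → ℝ
  | 0, x => μ x
  | d + 1, x => q d x.1 * Dw (Gs d) W μ (q d) x.1 *
      ∏ e, kw (Gs d) W μ (q d) (root d) (cwp Gs W μ q M d) x.1 (x.2 e)

/-- At every hub the root of every copy has the largest `a` in this copy. -/
def OKp {V : Type} [Fintype V] (Gs : ℕ → SimpleGraph V) (q : ℕ → V → ℝ) {M : ℕ} :
    (d : ℕ) → Conf M V d → Prop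
  | 0, _ => True
  | d + 1, x => ∀ e, OKp Gs q d (x.2 e) ∧ Top (Gs d) (q d) d (x.2 e)

/-- The basic hypotheses on the law and the weights. -/
structure PBas {V : Type} [Fintype V] (Gs : ℕ → SimpleGraph V) (W : Finset V) (μ : V → ℝ)
    (r : ℕ) (q : ℕ → V → ℝ) : Prop where
  μ0 : ∀ x, 0 ≤ μ x
  μW : ∀ x, x ∉ W → μ x = 0
  μ1 : ∑ x ∈ W, μ x = 1
  q0 : ∀ i < r, ∀ y, 0 ≤ q i y
  apos : ∀ i < r, ∀ x ∈ W, 0 < aw (Gs i) (q i) x

/-- A system of `r` unlinked levels whose hubs lie in one stable set; level `i` only sees the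
edges inside the classes of `p i`. -/
structure PSys {V ι : Type} [Fintype V] (G : SimpleGraph V) (p : ℕ → V → ι) (W : Finset V)
    (μ : V → ℝ) (r : ℕ) (J : Finset V) (q : ℕ → V → ℝ) (xi e1 : ℝ) : Prop where
  ref : ∀ i j, i < j → j < r → ∀ x y, p i x = p i y → p j x = p j y
  μ0 : ∀ x, 0 ≤ μ x
  μW : ∀ x, x ∉ W → μ x = 0
  μ1 : ∑ x ∈ W, μ x = 1
  q0 : ∀ i < r, ∀ y, 0 ≤ q i y
  q1 : ∀ i < r, ∑ y, q i y ≤ 1
  qJ : ∀ i < r, ∀ y, y ∉ J → q i y = 0
  stab : Stab G J
  apos : ∀ i < r, ∀ x ∈ W, 0 < aw (gp G (p i)) (q i) x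
  Dxi : ∀ i < r, ∀ w ∈ W, Dw (gp G (p i)) W μ (q i) w ≤ xi
  DxiJ : ∀ i j, i < j → j < r → ∀ y, q i y ≠ 0 → Dw (gp G (p j)) W μ (q j) y ≤ xi
  atm : ∀ i < r, ∀ x ∈ W, μ x ≤ xi * aw (gp G (p i)) (q i) x
  /-- nodes and inner hubs have small weight as hubs (for instance weight `0`) -/
  qat : ∀ j < r, ∀ x ∈ W, ∀ y, (gp G (p j)).Adj x y → (y ∈ W ∨ ∃ i < j, q i y ≠ 0) →
    q j y ≤ xi * aw (gp G (p j)) (q j) x
  lam : ∀ i j, i < j → j < r →
    ∑ x ∈ W, ∑ x' ∈ W, mt (gp G (p i)) W μ (q i) x x' * lk (gp G (p j)) (q j) x x' ≤ e1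

end Pool.Agent.Lib.FGP
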