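import Pool.Agent.Lib.FGP.Stmts
import Pool.Agent.Lib.FGF.LKer

/-!
# Theorem L on pairs: the kernel at a hub and the law of the copies
-/

set_option autoImplicit false

namespace Pool.Agent.Lib.FGP

open Finset Classical
open Pool.Agent.Lib.FracGS (nb wnb om TAdj)
open Pool.Agent.Lib.GSR3 (Stab Tree)
open Pool.Agent.Lib.FGL (aw Dw lk mt Conf root WN wv rn HN hv lev hr kw prb Top Clean)
open Pool.Agent.Lib.FGL.LKer (one two all perm gen exch supp kw_nonneg Dw_nonneg kw_sum sum_conf)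

namespace PKer

/-- the first part of the statement for the depth `d` -/
def PAp (M : ℕ) {V : Type} [Fintype V] (Gs : ℕ → SimpleGraph V) (W : Finset V) (μ : V → ℝ)
    (q : ℕ → V → ℝ) (d : ℕ) : Prop :=
  (∀ x, 0 ≤ cwp Gs W μ q M d x) ∧ ∑ x, cwp Gs W μ q M d x = 1 ∧
      (∀ F : V → ℝ, ∑ x, cwp Gs W μ q M d x * F (root d x) = ∑ v ∈ W, μ v * F v)

section Conf

variable {M : ℕ} {V : Type} [Fintype V] {Gs : ℕ → SimpleGraph V} {W : Finset V} {μ : V → ℝ} {r : ℕ}
  {q : ℕ → V → ℝ}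

/-- sums over the configurations of depth `d + 1` -/
lemma sum_cwp {d : ℕ} (Φ : V → (Fin (M + 1) → Conf M V d) → ℝ) :
    ∑ x, cwp Gs W μ q M (d + 1) x * Φ x.1 x.2 =
      ∑ g, q d g * Dw (Gs d) W μ (q d) g * ∑ f : Fin (M + 1) → Conf M V d,
        (∏ e, kw (Gs d) W μ (q d) (root d) (cwp Gs W μ q M d) g (f e)) * Φ g f := by
  rw [sum_conf]
  refine Finset.sum_congr rfl fun g _ => ?_
  rw [Finset.mul_sum]
  refine Finset.sum_congr rfl fun f _ => ?_
  change q d g * Dw (Gs d) W μ (q d) g *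
    (∏ e, kw (Gs d) W μ (q d) (root d) (cwp Gs W μ q M d) g (f e)) * Φ g f = _
  ring

variable (hB : PBas Gs W μ r q)

include hB in
lemma form1 {d : ℕ} (hd : d < r) (hA : PAp M Gs W μ q d) (e : Fin (M + 1))
    (F : V → Conf M V d → ℝ) :
    ∑ x, cwp Gs W μ q M (d + 1) x * F x.1 (x.2 e) =
          ∑ g, q d g * Dw (Gs d) W μ (q d) g *
            ∑ f, kw (Gs d) W μ (q d) (root d) (cwp Gs W μ q M d) g f * F g f := by
  rw [sum_cwp (fun g f => F g (f e))]
  refine gen hB.μ0 (hB.q0 d hd) hA.2.2 _ _ fun g hg => ?_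
  exact one hg e (F g)

include hB in
lemma form2 {d : ℕ} (hd : d < r) (hA : PAp M Gs W μ q d) (e : Fin (M + 1))
    (F : V → Conf M V d → ℝ) :
    ∑ x, cwp Gs W μ q M (d + 1) x * F x.1 (x.2 e) =
          ∑ f, cwp Gs W μ q M d f / aw (Gs d) (q d) (root d f) *
            ∑ g, if (Gs d).Adj (root d f) g then q d g * F g f else 0 := by
  rw [form1 hB hd hA]
  exact exch hB.μ0 hB.μW (hB.q0 d hd) (hB.apos d hd) hA.1 hA.2.2 F

include hB in
lemma form3 {d : ℕ} (hd : d < r) (hA : PAp M Gs W μ q d) (e : Fin (M + 1))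
    (F : Conf M V d → ℝ) :
    ∑ x, cwp Gs W μ q M (d + 1) x * F (x.2 e) = ∑ f, cwp Gs W μ q M d f * F f := by
  rw [form2 hB hd hA e (fun _ f => F f)]
  refine Finset.sum_congr rfl fun f _ => ?_
  by_cases h0 : cwp Gs W μ q M d f = 0
  · rw [h0]
    simp
  · obtain ⟨h1, -⟩ := supp hB.μW hA.1 hA.2.2 h0
    have h2 := hB.apos d hd _ h1
    have h3 : ∑ g, (if (Gs d).Adj (root d f) g then q d g * F f else 0) =
        aw (Gs d) (q d) (root d f) * F f := by
      unfold aw wnb nb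
      rw [← Finset.sum_filter, Finset.sum_mul]
    rw [h3, ← mul_assoc, div_mul_cancel₀ _ h2.ne']

include hB in
lemma succ {d : ℕ} (hd : d < r) (hA : PAp M Gs W μ q d) : PAp M Gs W μ q (d + 1) := by
  have h3 : ∀ F : V → ℝ, ∑ x, cwp Gs W μ q M (d + 1) x * F (root (d + 1) x) =
      ∑ v ∈ W, μ v * F v := by
    intro F
    rw [← hA.2.2 F]
    exact form3 hB hd hA 0 (fun f => F (root d f))
  refine ⟨fun x => ?_, ?_, h3⟩
  · change 0 ≤ q d x.1 * Dw (Gs d) W μ (q d) x.1 *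
      ∏ e, kw (Gs d) W μ (q d) (root d) (cwp Gs W μ q M d) x.1 (x.2 e)
    exact mul_nonneg (mul_nonneg (hB.q0 d hd _) (Dw_nonneg hB.μ0 (hB.q0 d hd) _))
      (Finset.prod_nonneg fun e _ => kw_nonneg hB.μ0 (hB.q0 d hd) hA.1 _ _)
  · have h4 := h3 (fun _ => 1)
    simp only [mul_one] at h4
    rw [h4, hB.μ1]

include hB in
lemma zero : PAp M Gs W μ q 0 := by
  have h1 : ∀ F : V → ℝ, ∑ x : V, μ x * F x = ∑ v ∈ W, μ v * F v := by
    intro F
    refine (Finset.sum_subset (Finset.subset_univ W) fun x _ hx => ?_).symm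
    rw [hB.μW x hx, zero_mul]
  refine ⟨hB.μ0, ?_, h1⟩
  have h4 := h1 (fun _ => 1)
  simp only [mul_one] at h4
  exact h4.trans hB.μ1

include hB in
lemma main : ∀ d ≤ r, PAp M Gs W μ q d := by
  intro d
  induction d with
  | zero => exact fun _ => zero hB
  | succ d ih => exact fun hd => succ hB hd (ih (Nat.le_of_succ_le hd))

end Conf

end PKer

open PKer

/-- Module `PKer`. -/
theorem stPKer : StPKer := by
  intro M V _ Gs W μ r q hB
  refine ⟨main hB, fun d hd => ?_⟩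
  have hA : PAp M Gs W μ q d := main hB d hd.le
  refine ⟨kw_nonneg hB.μ0 (hB.q0 d hd) hA.1, Dw_nonneg hB.μ0 (hB.q0 d hd),
    fun g hg => kw_sum hA.2.2 hg, form1 hB hd hA, form2 hB hd hA, form3 hB hd hA, ?_, ?_, ?_⟩
  · intro e e' hne F
    rw [sum_cwp (fun g f => F g (f e) (f e'))]
    exact gen hB.μ0 (hB.q0 d hd) hA.2.2 _ _ fun g hg => two hg hne (F g)
  · intro P
    rw [sum_cwp (fun _ f => ∏ e, P (f e))]
    exact gen hB.μ0 (hB.q0 d hd) hA.2.2 _ _ fun g _ => all P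
  · intro σ F
    rw [sum_cwp (fun g f => F g (fun e => f (σ e))), sum_cwp F]
    exact gen hB.μ0 (hB.q0 d hd) hA.2.2 _ _ fun g _ => perm _ σ (F g)

end Pool.Agent.Lib.FGP
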