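import Pool.Agent.Lib.FGP.Stmts
import Pool.Agent.Lib.FGF.LMarg

/-!
# Theorem L on pairs: marginals and support of the law of the configurations
-/

set_option autoImplicit false

namespace Pool.Agent.Lib.FGP

open Finset Classical
open Pool.Agent.Lib.FracGS (nb wnb om TAdj)
open Pool.Agent.Lib.GSR3 (Stab Tree)
open Pool.Agent.Lib.FGL (aw Dw lk mt Conf root WN wv rn HN hv lev hr kw prb Top Clean)

open Pool.Agent.Lib.FGL.LMarg (lev_lt root_eq exists_u sum_W)

namespace PMarg

variable {M : ℕ} {V : Type}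

variable [Fintype V] {Gs : ℕ → SimpleGraph V} {W : Finset V} {μ : V → ℝ} {r : ℕ} {q : ℕ → V → ℝ}

theorem supp (hμ : ∀ x, x ∉ W → μ x = 0) : ∀ (d : ℕ) (x : Conf M V d), cwp Gs W μ q M d x ≠ 0 →
    (∀ u, wv d x u ∈ W) ∧ (∀ h, q (lev d h) (hv d x h) ≠ 0) ∧
      (∀ h, (Gs (lev d h)).Adj (hr d x h) (hv d x h))
  | 0, x => by
    intro hx
    refine ⟨fun _ => ?_, fun h => h.elim, fun h => h.elim⟩
    by_contra hcon
    exact hx (hμ x hcon)
  | d + 1, x => by
    intro hx
    have hx' : q d x.1 * Dw (Gs d) W μ (q d) x.1 *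
      ∏ e, kw (Gs d) W μ (q d) (root d) (cwp Gs W μ q M d) x.1 (x.2 e) ≠ 0 := hx
    have h1 := left_ne_zero_of_mul (left_ne_zero_of_mul hx')
    have h2 := Finset.prod_ne_zero_iff.1 (right_ne_zero_of_mul hx')
    have h3 : ∀ e, cwp Gs W μ q M d (x.2 e) ≠ 0 ∧ (Gs d).Adj x.1 (root d (x.2 e)) := by
      intro e
      have h4 := h2 e (Finset.mem_univ e)
      unfold kw at h4
      constructor
      · intro h5
        apply h4
        rw [h5]
        simp
      · by_contra h5
        apply h4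
        rw [if_neg h5]
        simp
    refine ⟨fun u => (supp hμ d _ (h3 u.1).1).1 u.2, ?_, ?_⟩
    · intro h
      match h with
      | none => exact h1
      | some h => exact (supp hμ d _ (h3 h.1).1).2.1 h.2
    · intro h
      match h with
      | none => exact (h3 0).2.symm
      | some h => exact (supp hμ d _ (h3 h.1).1).2.2 h.2

theorem marg_w (h1 : StPKer) (hb : PBas Gs W μ r q) : ∀ (d : ℕ), d ≤ r → ∀ (u : WN M d) (F : V → ℝ),
    ∑ x, cwp Gs W μ q M d x * F (wv d x u) = ∑ v ∈ W, μ v * F v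
  | 0, _, _, F => sum_W hb.μW F
  | d + 1, hd, u, F => by
    have h2 := ((h1 M V Gs W μ r q hb).2 d (Nat.lt_of_succ_le hd)).2.2.2.2.2.1 u.1
      (fun f => F (wv d f u.2))
    exact h2.trans (marg_w h1 hb d (Nat.le_of_succ_le hd) u.2 F)

theorem marg_h (h1 : StPKer) (hb : PBas Gs W μ r q) : ∀ (d : ℕ), d ≤ r → ∀ (h : HN M d)
    (F : V → V → ℝ), ∑ x, cwp Gs W μ q M d x * F (hr d x h) (hv d x h) =
      ∑ v ∈ W, μ v / aw (Gs (lev d h)) (q (lev d h)) v *
        ∑ y, if (Gs (lev d h)).Adj v y then q (lev d h) y * F v y else 0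
  | 0, _, h, _ => h.elim
  | d + 1, hd, none, F => by
    have hk := (h1 M V Gs W μ r q hb).2 d (Nat.lt_of_succ_le hd)
    have h2 := hk.2.2.2.2.1 0 (fun g f => F (root d f) g)
    refine h2.trans ?_
    have h3 := ((h1 M V Gs W μ r q hb).1 d (Nat.le_of_succ_le hd)).2.2
      (fun v => (∑ y, if (Gs d).Adj v y then q d y * F v y else 0) / aw (Gs d) (q d) v)
    have h4 : ∀ f : Conf M V d, cwp Gs W μ q M d f / aw (Gs d) (q d) (root d f) *
        (∑ g, if (Gs d).Adj (root d f) g then q d g * F (root d f) g else 0) =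
        cwp Gs W μ q M d f * ((∑ y, if (Gs d).Adj (root d f) y then q d y * F (root d f) y else 0) /
          aw (Gs d) (q d) (root d f)) := by
      intro f
      ring
    have h5 : ∀ v : V, μ v / aw (Gs d) (q d) v *
        (∑ y, if (Gs d).Adj v y then q d y * F v y else 0) =
        μ v * ((∑ y, if (Gs d).Adj v y then q d y * F v y else 0) / aw (Gs d) (q d) v) := by
      intro v
      ring
    change _ = ∑ v ∈ W, μ v / aw (Gs d) (q d) v * ∑ y, if (Gs d).Adj v y then q d y * F v y else 0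
    rw [Finset.sum_congr rfl (fun f _ => h4 f), h3, Finset.sum_congr rfl (fun v _ => h5 v)]
  | d + 1, hd, some h, F => by
    have h2 := ((h1 M V Gs W μ r q hb).2 d (Nat.lt_of_succ_le hd)).2.2.2.2.2.1 h.1
      (fun f => F (hr d f h.2) (hv d f h.2))
    exact h2.trans (marg_h h1 hb d (Nat.le_of_succ_le hd) h.2 F)

theorem marg_y (h1 : StPKer) (hb : PBas Gs W μ r q) (d : ℕ) (hd : d ≤ r) (h : HN M d)
    (F : V → ℝ) : ∑ x, cwp Gs W μ q M d x * F (hv d x h) =
      ∑ y, q (lev d h) y * Dw (Gs (lev d h)) W μ (q (lev d h)) y * F y := by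
  rw [marg_h h1 hb d hd h (fun _ y => F y)]
  set ρ := q (lev d h) with hρ
  set G := Gs (lev d h) with hG
  have h2 : ∀ v ∈ W, μ v / aw G ρ v * (∑ y, if G.Adj v y then ρ y * F y else 0) =
      ∑ y, (if G.Adj v y then μ v / aw G ρ v * (ρ y * F y) else 0) := by
    intro v _
    rw [Finset.mul_sum]
    refine Finset.sum_congr rfl fun y _ => ?_
    split_ifs
    · rfl
    · rw [mul_zero]
  rw [Finset.sum_congr rfl h2, Finset.sum_comm]
  refine Finset.sum_congr rfl fun y _ => ?_
  rw [Dw, wnb, ← Finset.sum_filter]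
  have h3 : (nb G W y) = W.filter (fun v => G.Adj v y) := by
    ext v
    simp [nb, G.adj_comm]
  rw [h3, Finset.mul_sum, Finset.sum_mul]
  refine Finset.sum_congr rfl fun v _ => ?_
  ring

end PMarg

theorem stPMarg (h1 : StPKer) : StPMarg := by
  intro M V _ Gs W μ r q hb d hd
  exact ⟨PMarg.marg_w h1 hb d hd, PMarg.marg_h h1 hb d hd, PMarg.marg_y h1 hb d hd,
    lev_lt d, exists_u d, root_eq d, PMarg.supp hb.μW d⟩

end Pool.Agent.Lib.FGP
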