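import Pool.Agent.Lib.FGP.Stmts
import Pool.Agent.Lib.FGF.LOK

/-!
# Theorem L on pairs: the stages can be chosen such that the roots are on top
-/

set_option autoImplicit false

namespace Pool.Agent.Lib.FGP

open Finset Classical
open Pool.Agent.Lib.FracGS (nb wnb om TAdj)
open Pool.Agent.Lib.GSR3 (Stab Tree)
open Pool.Agent.Lib.FGL (aw Dw lk mt Conf root WN wv rn HN hv lev hr kw prb Top Clean)

open Pool.Agent.Lib.FGL.LOKx (ind ind_pos ind_neg ind_nonneg prb_eq prb_mono prb_union)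

namespace POKx

theorem cwp_congr {V : Type} [Fintype V] {Gs Gs' : ℕ → SimpleGraph V} (W : Finset V) (μ : V → ℝ)
    {q q' : ℕ → V → ℝ} (M : ℕ) :
    ∀ d : ℕ, (∀ i < d, Gs i = Gs' i) → (∀ i < d, q i = q' i) →
      cwp Gs W μ q M d = cwp Gs' W μ q' M d
  | 0, _, _ => rfl
  | d + 1, g, h => by
    have h1 := cwp_congr W μ M d (fun i hi => g i (Nat.lt_succ_of_lt hi))
      fun i hi => h i (Nat.lt_succ_of_lt hi)
    have h2 := h d (Nat.lt_succ_self d)
    have h3 := g d (Nat.lt_succ_self d)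
    funext x
    change q d x.1 * Dw (Gs d) W μ (q d) x.1 *
      ∏ e, kw (Gs d) W μ (q d) (root d) (cwp Gs W μ q M d) x.1 (x.2 e) = _
    rw [h1, h2, h3]
    rfl

theorem OKp_congr {V : Type} [Fintype V] {Gs Gs' : ℕ → SimpleGraph V} {q q' : ℕ → V → ℝ}
    {M : ℕ} :
    ∀ d : ℕ, (∀ i < d, Gs i = Gs' i) → (∀ i < d, q i = q' i) →
      ∀ x : Conf M V d, OKp Gs q d x → OKp Gs' q' d x
  | 0, _, _, _, _ => trivial
  | d + 1, g, h, x, hx => by
    intro e
    have h1 := OKp_congr d (fun i hi => g i (Nat.lt_succ_of_lt hi))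
      (fun i hi => h i (Nat.lt_succ_of_lt hi)) (x.2 e) (hx e).1
    have h2 := (hx e).2
    rw [h d (Nat.lt_succ_self d), g d (Nat.lt_succ_self d)] at h2
    exact ⟨h1, h2⟩

/-- all copies satisfy `P` -/
theorem prb_all (hK : StPKer) {M : ℕ} {V : Type} [Fintype V] {Gs : ℕ → SimpleGraph V} {W : Finset V}
    {μ : V → ℝ} {q : ℕ → V → ℝ} {d : ℕ} (hB : PBas Gs W μ (d + 1) q) (P : Conf M V d → Prop) :
    prb (cwp Gs W μ q M d) P ^ (M + 1) ≤ prb (cwp Gs W μ q M (d + 1)) (fun x => ∀ e, P (x.2 e)) := by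
  obtain ⟨hA, hC⟩ := hK M V Gs W μ (d + 1) q hB
  obtain ⟨k0, D0, k1, m1, -, m3, -, m5, -⟩ := hC d (Nat.lt_succ_self d)
  obtain ⟨-, hs1, -⟩ := hA (d + 1) le_rfl
  have e1 : prb (cwp Gs W μ q M (d + 1)) (fun x => ∀ e, P (x.2 e)) =
      ∑ x, cwp Gs W μ q M (d + 1) x * ∏ e : Fin (M + 1), ind (P (x.2 e)) := by
    rw [prb_eq]
    refine Finset.sum_congr rfl fun x _ => ?_
    congr 1
    by_cases h : ∀ e, P (x.2 e)
    · rw [ind_pos h]
      symm
      exact Finset.prod_eq_one fun e _ => ind_pos (h e)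
    · rw [ind_neg h]
      push Not at h
      obtain ⟨e, he⟩ := h
      symm
      exact Finset.prod_eq_zero (Finset.mem_univ e) (ind_neg he)
  have e2 : prb (cwp Gs W μ q M d) P = ∑ g, q d g * Dw (Gs d) W μ (q d) g *
      ∑ f, kw (Gs d) W μ (q d) (root d) (cwp Gs W μ q M d) g f * ind (P f) := by
    rw [prb_eq, ← m3 0 (fun f => ind (P f))]
    exact m1 0 (fun _ f => ind (P f))
  have hq0 : ∀ g, 0 ≤ q d g := hB.q0 d (Nat.lt_succ_self d)
  have e3 : ∑ g, q d g * Dw (Gs d) W μ (q d) g = 1 := by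
    have h := m1 0 (fun _ _ => 1)
    simp only [mul_one] at h
    rw [hs1] at h
    rw [h]
    refine Finset.sum_congr rfl fun g _ => ?_
    rcases (D0 g).eq_or_lt with h0 | h0
    · rw [← h0, mul_zero, zero_mul]
    · rw [k1 g h0, mul_one]
  rw [e1, e2, m5 (fun f => ind (P f))]
  refine Real.pow_arith_mean_le_arith_mean_pow univ _ _ (fun g _ => mul_nonneg (hq0 g) (D0 g)) e3
    (fun g _ => Finset.sum_nonneg fun f _ => mul_nonneg (k0 g f) (ind_nonneg _)) (M + 1)

/-- The root of the copy `e` is on top for the weight `ρ`. -/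
def Tp {V : Type} [Fintype V] (G : SimpleGraph V) (ρ : V → ℝ) {M d : ℕ}
    (y : Fin (M + 1) → Conf M V d) (e : Fin (M + 1)) : Prop :=
  ∀ e', aw G ρ (root d (y e')) ≤ aw G ρ (root d (y e))

theorem exists_Tp {V : Type} [Fintype V] (G : SimpleGraph V) (ρ : V → ℝ) {M d : ℕ}
    (y : Fin (M + 1) → Conf M V d) : ∃ e, Tp G ρ y e := by
  obtain ⟨e, -, he⟩ := Finset.exists_max_image (univ : Finset (Fin (M + 1)))
    (fun e => aw G ρ (root d (y e))) ⟨0, Finset.mem_univ 0⟩
  exact ⟨e, fun e' => he e' (Finset.mem_univ e')⟩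

/-- pigeonhole -/
theorem exists_Tp_set {V : Type} [Fintype V] (Gs : ℕ → SimpleGraph V) (q : ℕ → V → ℝ)
    {M d r' : ℕ} (y : Fin (M + 1) → Conf M V d) (S : Finset ℕ)
    (hS : (M + 1) * r' ≤ S.card) :
    ∃ e : Fin (M + 1), ∃ R ∈ S.powersetCard r', ∀ s ∈ R, Tp (Gs s) (q s) y e := by
  choose e he using fun s => exists_Tp (Gs s) (q s) y
  have hS' : (univ : Finset (Fin (M + 1))).card * r' ≤ S.card := by
    rw [Finset.card_univ, Fintype.card_fin]
    exact hS
  obtain ⟨a, -, ha⟩ := Finset.exists_le_card_fiber_of_mul_le_card_of_maps_to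
    (s := S) (t := (univ : Finset (Fin (M + 1)))) (f := e) (n := r')
    (fun s _ => Finset.mem_univ _) ⟨0, Finset.mem_univ 0⟩ hS'
  obtain ⟨R, hR, hRc⟩ := Finset.exists_subset_card_eq ha
  refine ⟨a, R, ?_, ?_⟩
  · rw [Finset.mem_powersetCard]
    exact ⟨hR.trans (Finset.filter_subset _ _), hRc⟩
  · intro s hs
    have h := (Finset.mem_filter.1 (hR hs)).2
    rw [← h]
    exact he s

end POKx

open POKx

/-- Module `POK`. -/
theorem stPOK (h1 : StPKer) : StPOK := by
  intro M d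
  induction d with
  | zero =>
    intro r'
    refine ⟨r', 1, one_pos, ?_⟩
    intro V _ Gs W μ q hB
    refine ⟨fun _ => 0, range r', fun i hi => absurd hi (Nat.not_lt_zero i),
      fun i j _ hj => absurd hj (Nat.not_lt_zero j), ?_, Finset.card_range r', ?_⟩
    · intro s hs
      exact ⟨Finset.mem_range.1 hs, fun i hi => absurd hi (Nat.not_lt_zero i)⟩
    · have h2 := ((h1 M V Gs W μ r' q hB).1 0 (Nat.zero_le _)).2.1
      have h3 : prb (cwp (fun _ => Gs 0) W μ (fun _ => q 0) M 0) (fun x =>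
          OKp (fun _ => Gs 0) (fun _ => q 0) 0 x ∧ ∀ s ∈ range r', Top (Gs s) (q s) 0 x) =
          ∑ x, cwp Gs W μ q M 0 x := by
        unfold prb
        refine Finset.sum_congr rfl fun x _ => ?_
        rw [if_pos]
        · rfl
        · exact ⟨trivial, fun s _ _ => le_refl _⟩
      rw [h3, h2]
  | succ d ih =>
    intro r'
    obtain ⟨r, κ, hκ, h⟩ := ih ((M + 1) * r' + 1)
    set N : ℕ := (M + 1) * r' with hN
    refine ⟨r, κ ^ (M + 1) / ((M + 1 : ℕ) * 2 ^ (N + 1)), by positivity, ?_⟩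
    intro V _ Gs W μ q hB
    obtain ⟨c, R, hc1, hc2, hR, hRc, hκP⟩ := h V Gs W μ q hB
    have hRne : R.Nonempty := by
      rw [← Finset.card_pos, hRc]
      exact Nat.succ_pos _
    set m : ℕ := R.min' hRne with hm
    have hmR : m ∈ R := Finset.min'_mem R hRne
    set c' : ℕ → ℕ := fun i => if i < d then c i else m with hc'
    have hc'1 : ∀ i < d, c' i = c i := fun i hi => if_pos hi
    have hc'2 : c' d = m := if_neg (lt_irrefl d)
    set S : Finset ℕ := R.erase m with hS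
    have hSc : S.card = N := by
      rw [hS, Finset.card_erase_of_mem hmR, hRc]
      rfl
    have hSR : ∀ s ∈ S, s ∈ R := fun s hs => Finset.mem_of_mem_erase hs
    have hSm : ∀ s ∈ S, m < s := by
      intro s hs
      exact lt_of_le_of_ne (Finset.min'_le R s (hSR s hs)) (Finset.ne_of_mem_erase hs).symm
    have hlt : ∀ i < d + 1, c' i < r := by
      intro i hi
      rcases Nat.lt_succ_iff_lt_or_eq.1 hi with h2 | h2
      · rw [hc'1 i h2]
        exact hc1 i h2
      · rw [h2, hc'2]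
        exact (hR m hmR).1
    have hinc : ∀ i j, i < j → j < d + 1 → c' i < c' j := by
      intro i j hij hj
      rcases Nat.lt_succ_iff_lt_or_eq.1 hj with h2 | h2
      · rw [hc'1 i (hij.trans h2), hc'1 j h2]
        exact hc2 i j hij h2
      · rw [h2] at hij ⊢
        rw [hc'1 i hij, hc'2]
        exact (hR m hmR).2 i hij
    set q₁ : ℕ → V → ℝ := fun i => q (c i) with hq₁
    set q₂ : ℕ → V → ℝ := fun i => q (c' i) with hq₂
    have hq12 : ∀ i < d, q₁ i = q₂ i := by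
      intro i hi
      rw [hq₁, hq₂]
      simp only
      rw [hc'1 i hi]
    have hq2d : q₂ d = q m := by
      rw [hq₂]
      simp only
      rw [hc'2]
    set G₁ : ℕ → SimpleGraph V := fun i => Gs (c i) with hG₁
    set G₂ : ℕ → SimpleGraph V := fun i => Gs (c' i) with hG₂
    have hG12 : ∀ i < d, G₁ i = G₂ i := by
      intro i hi
      rw [hG₁, hG₂]
      simp only
      rw [hc'1 i hi]
    have hG2d : G₂ d = Gs m := by
      rw [hG₂]
      simp only
      rw [hc'2]
    have hB2 : PBas G₂ W μ (d + 1) q₂ := by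
      refine ⟨hB.μ0, hB.μW, hB.μ1, ?_, ?_⟩
      · intro i hi
        exact hB.q0 _ (hlt i hi)
      · intro i hi
        exact hB.apos _ (hlt i hi)
    set P : Conf M V d → Prop := fun x => OKp G₁ q₁ d x ∧ ∀ s ∈ R, Top (Gs s) (q s) d x with hP
    have hPA := prb_all h1 hB2 P
    rw [← cwp_congr W μ M d hG12 hq12] at hPA
    have hw0 : ∀ x, 0 ≤ cwp G₂ W μ q₂ M (d + 1) x :=
      ((h1 M V G₂ W μ (d + 1) q₂ hB2).1 (d + 1) le_rfl).1
    set A : Finset ℕ → Fin (M + 1) → Conf M V (d + 1) → Prop := fun R' e x =>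
      (∀ e', P (x.2 e')) ∧ ∀ s ∈ R', Tp (Gs s) (q s) x.2 e with hA
    -- symmetry
    have hsym : ∀ (R' : Finset ℕ) (e : Fin (M + 1)), prb (cwp G₂ W μ q₂ M (d + 1)) (A R' e) =
        prb (cwp G₂ W μ q₂ M (d + 1)) (A R' 0) := by
      intro R' e
      obtain ⟨-, -, -, -, -, -, -, -, hperm⟩ :=
        (h1 M V G₂ W μ (d + 1) q₂ hB2).2 d (Nat.lt_succ_self d)
      have h3 := hperm (Equiv.swap 0 e) (fun _ y => ind ((∀ e', P (y e')) ∧
        ∀ s ∈ R', Tp (Gs s) (q s) y e))
      rw [prb_eq, prb_eq]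
      refine Eq.trans h3.symm ?_
      refine Finset.sum_congr rfl fun x _ => ?_
      congr 1
      have h4 : ((∀ e', P (x.2 (Equiv.swap 0 e e'))) ∧
          ∀ s ∈ R', Tp (Gs s) (q s) (fun e' => x.2 (Equiv.swap 0 e e')) e) ↔ A R' 0 x := by
        constructor
        · rintro ⟨h5, h6⟩
          refine ⟨fun e' => ?_, fun s hs e' => ?_⟩
          · have := h5 (Equiv.swap 0 e e')
            rwa [Equiv.swap_apply_self] at this
          · have := h6 s hs (Equiv.swap 0 e e')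
            simp only [Equiv.swap_apply_self, Equiv.swap_apply_right] at this
            exact this
        · rintro ⟨h5, h6⟩
          refine ⟨fun e' => h5 _, fun s hs e' => ?_⟩
          have := h6 s hs (Equiv.swap 0 e e')
          simp only [Equiv.swap_apply_right]
          exact this
      exact congrArg ind (propext h4)
    have hunion : prb (cwp G₂ W μ q₂ M (d + 1)) (fun x => ∀ e, P (x.2 e)) ≤
        ∑ p ∈ (univ : Finset (Fin (M + 1))) ×ˢ S.powersetCard r',
          prb (cwp G₂ W μ q₂ M (d + 1)) (A p.2 p.1) := by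
      refine prb_union hw0 _ (fun p : Fin (M + 1) × Finset ℕ => A p.2 p.1) fun x hx => ?_
      obtain ⟨e, R', hR', hT⟩ := exists_Tp_set Gs q x.2 S (le_of_eq hSc.symm)
      exact ⟨(e, R'), Finset.mem_product.2 ⟨Finset.mem_univ _, hR'⟩, hx, hT⟩
    have hex : ∃ R' ∈ S.powersetCard r',
        κ ^ (M + 1) / ((M + 1 : ℕ) * 2 ^ (N + 1)) ≤ prb (cwp G₂ W μ q₂ M (d + 1)) (A R' 0) := by
      by_contra hcon
      push Not at hcon
      have h3 : ∑ p ∈ (univ : Finset (Fin (M + 1))) ×ˢ S.powersetCard r',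
          prb (cwp G₂ W μ q₂ M (d + 1)) (A p.2 p.1) ≤
          ((M + 1) * 2 ^ N : ℕ) • (κ ^ (M + 1) / ((M + 1 : ℕ) * 2 ^ (N + 1))) := by
        have h4 : ∀ p ∈ (univ : Finset (Fin (M + 1))) ×ˢ S.powersetCard r',
            prb (cwp G₂ W μ q₂ M (d + 1)) (A p.2 p.1) ≤
              κ ^ (M + 1) / ((M + 1 : ℕ) * 2 ^ (N + 1)) := by
          intro p hp
          rw [hsym]
          exact (hcon p.2 (Finset.mem_product.1 hp).2).le
        refine (Finset.sum_le_card_nsmul _ _ _ h4).trans ?_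
        refine nsmul_le_nsmul_left (by positivity) ?_
        rw [Finset.card_product, Finset.card_univ, Fintype.card_fin]
        refine Nat.mul_le_mul_left _ ?_
        rw [Finset.card_powersetCard, hSc]
        exact Nat.choose_le_two_pow N r'
      have h4 : ((M + 1) * 2 ^ N : ℕ) • (κ ^ (M + 1) / ((M + 1 : ℕ) * 2 ^ (N + 1))) =
          κ ^ (M + 1) / 2 := by
        rw [nsmul_eq_mul]
        push_cast
        have : ((M : ℝ) + 1) ≠ 0 := by positivity
        field_simp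
        ring
      have h5 : κ ^ (M + 1) ≤ prb (cwp G₁ W μ q₁ M d) P ^ (M + 1) :=
        pow_le_pow_left₀ hκ.le hκP _
      have h6 : 0 < κ ^ (M + 1) := by positivity
      linarith
    obtain ⟨R', hR', hR'P⟩ := hex
    rw [Finset.mem_powersetCard] at hR'
    refine ⟨c', R', hlt, hinc, ?_, hR'.2, hR'P.trans (prb_mono hw0 ?_)⟩
    · intro s hs
      have hsS := hR'.1 hs
      refine ⟨(hR s (hSR s hsS)).1, fun i hi => ?_⟩
      rcases Nat.lt_succ_iff_lt_or_eq.1 hi with h2 | h2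
      · rw [hc'1 i h2]
        exact (hR s (hSR s hsS)).2 i h2
      · rw [h2, hc'2]
        exact hSm s hsS
    · rintro x ⟨hx1, hx2⟩
      refine ⟨fun e => ⟨OKp_congr d hG12 hq12 _ (hx1 e).1, ?_⟩, fun s hs => ?_⟩
      · have h3 := (hx1 e).2 m hmR
        change Top (G₂ d) (q₂ d) d (x.2 e)
        rw [hq2d, hG2d]
        exact h3
      · rintro ⟨e, u⟩
        exact ((hx1 e).2 s (hSR s (hR'.1 hs)) u).trans (hx2 s hs e)

end Pool.Agent.Lib.FGP
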