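import Pool.Agent.Lib.FGP.Stmts
import Pool.Agent.Lib.FGF.LOne

/-!
# Theorem L on pairs: conflicts between the outer hub and a copy
-/

set_option autoImplicit false

namespace Pool.Agent.Lib.FGP

open Finset Classical
open Pool.Agent.Lib.FracGS (nb wnb om TAdj)
open Pool.Agent.Lib.GSR3 (Stab Tree)
open Pool.Agent.Lib.FGL (aw Dw lk mt Conf root WN wv rn HN hv lev hr kw prb Top Clean)

open Pool.Agent.Lib.FGL.LOneAux in
theorem stPOne (h0 : StPSub) (h1 : StPKer) (h2 : StPMarg) (h4 : StPOp) : StPOne := by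
  intro M V ι _ G p W μ r J q xi e1 hS hxi he1 d hd eta heta
  set Gs : ℕ → SimpleGraph V := fun i => gp G (p i) with hGs
  have hB : PBas Gs W μ r q := (h0 V ι G p W μ r J q xi e1 hS).1
  obtain ⟨k1, k2⟩ := h1 M V Gs W μ r q hB
  obtain ⟨c0, c1, c2⟩ := k1 d hd.le
  obtain ⟨w0, D0, w1, f1, f2, f3, _⟩ := k2 d hd
  obtain ⟨m1, m2, m3, m4, m5, m6, m7⟩ := h2 M V Gs W μ r q hB d hd.le
  -- the probability that the outer hub is a given vertex of the copy
  have heq : ∀ (e : Fin (M + 1)) (b : Conf M V d → V),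
      (∀ f, cwp Gs W μ q M d f ≠ 0 → b f ∈ W ∨ ∃ i < d, q i (b f) ≠ 0) →
      prb (cwp Gs W μ q M (d + 1)) (fun x => x.1 = b (x.2 e)) ≤ xi := by
    intro e b hb
    rw [prb_eq]
    refine (f2 e (fun g f => ind (g = b f))).le.trans ?_
    have hle : ∀ f ∈ (univ : Finset (Conf M V d)), cwp Gs W μ q M d f / aw (Gs d) (q d) (root d f) *
        (∑ g, if (Gs d).Adj (root d f) g then q d g * ind (g = b f) else 0) ≤
          xi * cwp Gs W μ q M d f := by
      intro f _
      by_cases hc : cwp Gs W μ q M d f = 0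
      · rw [hc, zero_div, zero_mul, mul_zero]
      obtain ⟨hW, _, _⟩ := m7 f hc
      have hr : root d f ∈ W := by
        rw [m6 f]
        exact hW _
      have ha : 0 < aw (Gs d) (q d) (root d f) := hS.apos d hd _ hr
      have h5 : (∑ g, if (Gs d).Adj (root d f) g then q d g * ind (g = b f) else 0) ≤
          xi * aw (Gs d) (q d) (root d f) := by
        by_cases hadj : (Gs d).Adj (root d f) (b f)
        · rw [Finset.sum_eq_single (b f)]
          · rw [if_pos hadj, ind_pos rfl, mul_one]
            exact hS.qat d hd _ hr _ hadj (hb f hc)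
          · intro g _ hg
            rw [ind_neg hg, mul_zero, ite_self]
          · intro h
            exact absurd (mem_univ _) h
        · refine le_of_eq_of_le ?_ (mul_nonneg hxi ha.le)
          refine sum_eq_zero fun g _ => ?_
          by_cases hg : g = b f
          · rw [if_neg (by rw [hg]; exact hadj)]
          · rw [ind_neg hg, mul_zero, ite_self]
      calc cwp Gs W μ q M d f / aw (Gs d) (q d) (root d f) *
            (∑ g, if (Gs d).Adj (root d f) g then q d g * ind (g = b f) else 0)
          ≤ cwp Gs W μ q M d f / aw (Gs d) (q d) (root d f) * (xi * aw (Gs d) (q d) (root d f)) :=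
            mul_le_mul_of_nonneg_left h5 (div_nonneg (c0 f) ha.le)
        _ = xi * cwp Gs W μ q M d f := by
            field_simp
    refine (sum_le_sum hle).trans ?_
    rw [← mul_sum, c1, mul_one]
  refine ⟨?_, fun e => ⟨fun u hu => ?_, fun u => ?_, fun h => ?_⟩⟩
  · -- (1)
    rw [prb_eq]
    refine (f1 0 (fun g _ => ind (Dw (Gs d) W μ (q d) g < eta))).le.trans ?_
    have hle : ∀ g ∈ (univ : Finset V), q d g * Dw (Gs d) W μ (q d) g *
        ∑ f, kw (Gs d) W μ (q d) (root d) (cwp Gs W μ q M d) g f *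
          ind (Dw (Gs d) W μ (q d) g < eta) ≤ eta * q d g := by
      intro g _
      rw [← sum_mul]
      by_cases hg : Dw (Gs d) W μ (q d) g < eta
      · rw [ind_pos hg, mul_one]
        rcases (D0 g).eq_or_lt with hD | hD
        · rw [← hD, mul_zero, zero_mul]
          exact mul_nonneg heta.le (hS.q0 d hd g)
        · rw [w1 g hD, mul_one, mul_comm]
          exact mul_le_mul_of_nonneg_right hg.le (hS.q0 d hd g)
      · rw [ind_neg hg, mul_zero, mul_zero]
        exact mul_nonneg heta.le (hS.q0 d hd g)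
    refine (sum_le_sum hle).trans ?_
    rw [← mul_sum]
    calc eta * ∑ g, q d g ≤ eta * 1 := mul_le_mul_of_nonneg_left (hS.q1 d hd) heta.le
      _ = eta := mul_one _
  · -- (2)
    rw [prb_eq]
    refine (f2 e (fun g f => ind (Top (Gs d) (q d) d f ∧ (Gs d).Adj g (wv d f u)))).le.trans ?_
    refine le_trans ?_ (h4 M V ι G p W μ r J q xi e1 hS he1 d hd u hu)
    refine sum_le_sum fun f _ => ?_
    have hlk : 0 ≤ lk (Gs d) (q d) (root d f) (wv d f u) := lk_nonneg (Gs d) (hS.q0 d hd) _ _
    by_cases hT : Top (Gs d) (q d) d f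
    · have e : (∑ g, if (Gs d).Adj (root d f) g then q d g *
          ind (Top (Gs d) (q d) d f ∧ (Gs d).Adj g (wv d f u)) else 0) =
          om (Gs d) univ (q d) (root d f) (wv d f u) := by
        rw [← sum_om]
        refine sum_congr rfl fun g _ => ?_
        simp only [hT, true_and]
      rw [e]
      by_cases hc : cwp Gs W μ q M d f = 0
      · rw [hc, zero_div, zero_mul, zero_mul]
      · obtain ⟨hW, _, _⟩ := m7 f hc
        have ha : 0 < aw (Gs d) (q d) (root d f) := by
          rw [m6 f]
          exact hS.apos d hd _ (hW _)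
        have hb : 0 < aw (Gs d) (q d) (wv d f u) := hS.apos d hd _ (hW u)
        have hs : 0 < Real.sqrt (aw (Gs d) (q d) (root d f) * aw (Gs d) (q d) (wv d f u)) :=
          Real.sqrt_pos.2 (mul_pos ha hb)
        have hs2 : Real.sqrt (aw (Gs d) (q d) (root d f) * aw (Gs d) (q d) (wv d f u)) ≤
            aw (Gs d) (q d) (root d f) := by
          rw [Real.sqrt_le_left ha.le, sq]
          exact mul_le_mul_of_nonneg_left (hT u) ha.le
        rw [div_mul_eq_mul_div, mul_div_assoc]
        refine mul_le_mul_of_nonneg_left ?_ (c0 f)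
        exact div_le_div_of_nonneg_left (om_nonneg (Gs d) univ (hS.q0 d hd) _ _) hs hs2
    · have e : (∑ g, if (Gs d).Adj (root d f) g then q d g *
          ind (Top (Gs d) (q d) d f ∧ (Gs d).Adj g (wv d f u)) else 0) = 0 := by
        refine sum_eq_zero fun g _ => ?_
        rw [ind_neg fun h : Top (Gs d) (q d) d f ∧ (Gs d).Adj g (wv d f u) => hT h.1, mul_zero, ite_self]
      rw [e, mul_zero]
      exact mul_nonneg (c0 f) hlk
  · -- (3)
    exact heq e (fun f => wv d f u) fun f hf => Or.inl ((m7 f hf).1 u)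
  · -- (4)
    exact heq e (fun f => hv d f h) fun f hf => Or.inr ⟨lev d h, m4 h, (m7 f hf).2.1 h⟩

end Pool.Agent.Lib.FGP
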