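import Pool.Agent.Lib.FGP.Stmts
import Pool.Agent.Lib.FGF.LOp

/-!
# Theorem L on pairs: subsystems, links between the root and another vertex
-/

set_option autoImplicit false

namespace Pool.Agent.Lib.FGP

open Finset Classical
open Pool.Agent.Lib.FracGS (nb wnb om TAdj)
open Pool.Agent.Lib.GSR3 (Stab Tree)
open Pool.Agent.Lib.FGL (aw Dw lk mt Conf root WN wv rn HN hv lev hr kw prb Top Clean)
open Pool.Agent.Lib.FGL.LOpAux (gy aw_eq aw_nonneg om_eq gy_nonneg lk_eq sum_gy root_sq)

/-- Subsystems along increasing maps; weakening of the constants. -/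
theorem stPSub : StPSub := by
  intro V ι _ G p W μ r J q xi e1 h
  refine ⟨⟨h.μ0, h.μW, h.μ1, h.q0, h.apos⟩, ?_, ?_⟩
  · intro d c hc hinc
    exact
      { ref := fun i j hij hj => h.ref _ _ (hinc i j hij hj) (hc j hj)
        μ0 := h.μ0
        μW := h.μW
        μ1 := h.μ1
        q0 := fun i hi => h.q0 _ (hc i hi)
        q1 := fun i hi => h.q1 _ (hc i hi)
        qJ := fun i hi => h.qJ _ (hc i hi)
        stab := h.stab
        apos := fun i hi => h.apos _ (hc i hi)
        Dxi := fun i hi => h.Dxi _ (hc i hi)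
        DxiJ := fun i j hij hj => h.DxiJ _ _ (hinc i j hij hj) (hc j hj)
        atm := fun i hi => h.atm _ (hc i hi)
        qat := by
          intro j hj x hx y hxy hy
          refine h.qat _ (hc j hj) x hx y hxy ?_
          rcases hy with hy | ⟨i, hi, hy⟩
          · exact Or.inl hy
          · exact Or.inr ⟨c i, hinc i j hi hj, hy⟩
        lam := fun i j hij hj => h.lam _ _ (hinc i j hij hj) (hc j hj) }
  · intro xi' e1' hxi he1
    exact
      { ref := h.ref
        μ0 := h.μ0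
        μW := h.μW
        μ1 := h.μ1
        q0 := h.q0
        q1 := h.q1
        qJ := h.qJ
        stab := h.stab
        apos := h.apos
        Dxi := fun i hi w hw => (h.Dxi i hi w hw).trans hxi
        DxiJ := fun i j hij hj w hw => (h.DxiJ i j hij hj w hw).trans hxi
        atm := fun i hi x hx => (h.atm i hi x hx).trans
          (mul_le_mul_of_nonneg_right hxi (h.apos i hi x hx).le)
        qat := fun j hj x hx y hxy hy => (h.qat j hj x hx y hxy hy).trans
          (mul_le_mul_of_nonneg_right hxi (h.apos j hj x hx).le)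
        lam := fun i j hij hj => (h.lam i j hij hj).trans he1 }

namespace POp

variable {V : Type} [Fintype V] {Gs : ℕ → SimpleGraph V} {W : Finset V} {μ : V → ℝ} {r : ℕ}
  {q : ℕ → V → ℝ}

lemma mt_nonneg (hB : PBas Gs W μ r q) {i : ℕ} (hi : i < r) (x x' : V) :
    0 ≤ mt (Gs i) W μ (q i) x x' := by
  have hq := hB.q0 i hi
  have hD : ∀ y, 0 ≤ Dw (Gs i) W μ (q i) y := by
    intro y
    unfold Dw wnb
    exact sum_nonneg fun v _ => div_nonneg (hB.μ0 v) (aw_nonneg hq v)
  unfold FGL.mt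
  refine mul_nonneg (mul_nonneg ?_ (div_nonneg (hB.μ0 x) (aw_nonneg hq x)))
    (div_nonneg (hB.μ0 x') (aw_nonneg hq x'))
  rw [om_eq]
  refine sum_nonneg fun y _ => ?_
  split_ifs
  · exact div_nonneg (hq y) (hD y)
  · exact le_rfl

/-- the main recursion -/
lemma key (h1 : StPKer) (h2 : StPMarg) (M : ℕ) (hB : PBas Gs W μ r q) :
    ∀ d ≤ r, ∀ u : WN M d, u ≠ rn M d → ∃ i < d, ∀ F K : V → ℝ,
      (∑ x, cwp Gs W μ q M d x * (F (root d x) * K (wv d x u))) ^ 2 ≤
        (∑ x ∈ W, ∑ x' ∈ W, mt (Gs i) W μ (q i) x x' * F x * F x') * ∑ v ∈ W, μ v * K v ^ 2 := by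
  obtain ⟨hL1, hL2⟩ := h1 M V Gs W μ r q hB
  intro d
  induction d with
  | zero =>
    intro _ u hu
    exact absurd rfl hu
  | succ d ih =>
    intro hd u hu
    have hd' : d < r := hd
    obtain ⟨hk0, hD0, hk1, hL4, -, hcopy, htwo, -, -⟩ := hL2 d hd'
    obtain ⟨hw0, -, hroot⟩ := hL1 d hd'.le
    obtain ⟨e, u'⟩ := u
    by_cases he : e = 0
    · subst he
      have hu' : u' ≠ rn M d := fun h => hu (by rw [h]; rfl)
      obtain ⟨i, hi, hi2⟩ := ih hd'.le u' hu'
      refine ⟨i, hi.trans (Nat.lt_succ_self d), fun F K => ?_⟩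
      have h3 := hcopy 0 (fun f => F (root d f) * K (wv d f u'))
      have h4 : ∑ x, cwp Gs W μ q M (d + 1) x *
          (F (root (d + 1) x) * K (wv (d + 1) x ((0 : Fin (M + 1)), u'))) =
          ∑ f, cwp Gs W μ q M d f * (F (root d f) * K (wv d f u')) := h3
      rw [h4]
      exact hi2 F K
    · refine ⟨d, Nat.lt_succ_self d, fun F K => ?_⟩
      have h3 := htwo 0 e (fun h => he h.symm) (fun _ f f' => F (root d f) * K (wv d f' u'))
      have h4 : ∑ x, cwp Gs W μ q M (d + 1) x *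
          (F (root (d + 1) x) * K (wv (d + 1) x (e, u'))) =
          ∑ g, q d g * Dw (Gs d) W μ (q d) g *
            ((∑ f, kw (Gs d) W μ (q d) (root d) (cwp Gs W μ q M d) g f * F (root d f)) *
              ∑ f, kw (Gs d) W μ (q d) (root d) (cwp Gs W μ q M d) g f * K (wv d f u')) := by
        refine Eq.trans h3 (sum_congr rfl fun g _ => ?_)
        congr 1
        rw [mul_comm (∑ f, kw (Gs d) W μ (q d) (root d) (cwp Gs W μ q M d) g f * F (root d f)), sum_mul]
        refine sum_congr rfl fun f' _ => ?_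
        rw [mul_assoc, mul_comm (K (wv d f' u')), sum_mul]
        congr 1
        exact sum_congr rfl fun f _ => by ring
      rw [h4]
      have hw : ∀ g, 0 ≤ q d g * Dw (Gs d) W μ (q d) g := fun g =>
        mul_nonneg (hB.q0 d hd' g) (hD0 g)
      refine le_trans (sum_sq_le_sum_mul_sum_of_sq_le_mul univ
        (f := fun g => q d g * Dw (Gs d) W μ (q d) g *
          (∑ f, kw (Gs d) W μ (q d) (root d) (cwp Gs W μ q M d) g f * F (root d f)) ^ 2)
        (g := fun g => q d g * Dw (Gs d) W μ (q d) g *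
          (∑ f, kw (Gs d) W μ (q d) (root d) (cwp Gs W μ q M d) g f * K (wv d f u')) ^ 2)
        (fun g _ => mul_nonneg (hw g) (sq_nonneg _)) (fun g _ => mul_nonneg (hw g) (sq_nonneg _))
        (fun g _ => le_of_eq (by ring))) ?_
      have hA : ∑ g, q d g * Dw (Gs d) W μ (q d) g *
          (∑ f, kw (Gs d) W μ (q d) (root d) (cwp Gs W μ q M d) g f * F (root d f)) ^ 2 =
          ∑ x ∈ W, ∑ x' ∈ W, mt (Gs d) W μ (q d) x x' * F x * F x' := by
        rw [← root_sq]
        refine sum_congr rfl fun g _ => ?_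
        congr 2
        rw [← hroot]
        refine sum_congr rfl fun f _ => ?_
        rw [kw]
        ring
      have hBd : ∑ g, q d g * Dw (Gs d) W μ (q d) g *
          (∑ f, kw (Gs d) W μ (q d) (root d) (cwp Gs W μ q M d) g f * K (wv d f u')) ^ 2 ≤
          ∑ v ∈ W, μ v * K v ^ 2 := by
        have h5 : ∑ v ∈ W, μ v * K v ^ 2 = ∑ g, q d g * Dw (Gs d) W μ (q d) g *
            ∑ f, kw (Gs d) W μ (q d) (root d) (cwp Gs W μ q M d) g f * K (wv d f u') ^ 2 := by
          rw [← (h2 M V Gs W μ r q hB d hd'.le).1 u' (fun v => K v ^ 2),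
            ← hcopy e (fun f => K (wv d f u') ^ 2)]
          exact hL4 e (fun _ f => K (wv d f u') ^ 2)
        rw [h5]
        refine sum_le_sum fun g _ => ?_
        rcases (hD0 g).lt_or_eq with h6 | h6
        · refine mul_le_mul_of_nonneg_left ?_ (hw g)
          have h7 := sum_sq_le_sum_mul_sum_of_sq_le_mul univ
            (r := fun f => kw (Gs d) W μ (q d) (root d) (cwp Gs W μ q M d) g f * K (wv d f u'))
            (f := fun f => kw (Gs d) W μ (q d) (root d) (cwp Gs W μ q M d) g f)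
            (g := fun f => kw (Gs d) W μ (q d) (root d) (cwp Gs W μ q M d) g f * K (wv d f u') ^ 2)
            (fun f _ => hk0 g f) (fun f _ => mul_nonneg (hk0 g f) (sq_nonneg _))
            (fun f _ => le_of_eq (by ring))
          rwa [hk1 g h6, one_mul] at h7
        · rw [← h6]
          simp
      rw [hA]
      refine mul_le_mul_of_nonneg_left hBd ?_
      rw [← hA]
      exact sum_nonneg fun g _ => mul_nonneg (hw g) (sq_nonneg _)

end POp

open POp in
theorem stPOp (h0 : StPSub) (h1 : StPKer) (h2 : StPMarg) : StPOp := by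
  intro M V ι _ G p W μ r J q xi e1 hS he1 d hd u hu
  obtain ⟨hB, -, -⟩ := h0 V ι G p W μ r J q xi e1 hS
  set Gs : ℕ → SimpleGraph V := fun i => gp G (p i) with hGs
  obtain ⟨i, hi, hkey⟩ := key h1 h2 M hB d hd.le u hu
  have hq := hB.q0 d hd
  set ρ := q d with hρ
  have hZ : ∑ x, cwp Gs W μ q M d x * lk (Gs d) ρ (root d x) (wv d x u) =
      ∑ y, ρ y * ∑ x, cwp Gs W μ q M d x * (gy (Gs d) ρ y (root d x) * gy (Gs d) ρ y (wv d x u)) := by
    rw [sum_congr rfl fun x _ => by rw [lk_eq hq, mul_sum], sum_comm]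
    refine sum_congr rfl fun y _ => ?_
    rw [mul_sum]
    exact sum_congr rfl fun x _ => by ring
  rw [hZ]
  refine (le_abs_self _).trans (Real.abs_le_sqrt ?_)
  have hi' : i < r := hi.trans hd
  set A : V → ℝ := fun y =>
    ∑ x ∈ W, ∑ x' ∈ W, mt (Gs i) W μ (q i) x x' * gy (Gs d) ρ y x * gy (Gs d) ρ y x' with hA
  set B : V → ℝ := fun y => ∑ v ∈ W, μ v * gy (Gs d) ρ y v ^ 2 with hBdef
  have hA0 : ∀ y, 0 ≤ A y := fun y => sum_nonneg fun x _ => sum_nonneg fun x' _ =>
    mul_nonneg (mul_nonneg (mt_nonneg hB hi' x x') (gy_nonneg ρ y x)) (gy_nonneg ρ y x')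
  have hB0 : ∀ y, 0 ≤ B y := fun y => sum_nonneg fun v _ =>
    mul_nonneg (hB.μ0 v) (sq_nonneg _)
  have hCS := sum_sq_le_sum_mul_sum_of_sq_le_mul univ
    (r := fun y => ρ y * ∑ x, cwp Gs W μ q M d x * (gy (Gs d) ρ y (root d x) * gy (Gs d) ρ y (wv d x u)))
    (f := fun y => ρ y * A y) (g := fun y => ρ y * B y)
    (fun y _ => mul_nonneg (hq y) (hA0 y)) (fun y _ => mul_nonneg (hq y) (hB0 y))
    (fun y _ => by
      rw [mul_pow]
      calc ρ y ^ 2 * (∑ x, cwp Gs W μ q M d x *
            (gy (Gs d) ρ y (root d x) * gy (Gs d) ρ y (wv d x u))) ^ 2 ≤ ρ y ^ 2 * (A y * B y) :=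
            mul_le_mul_of_nonneg_left (hkey (gy (Gs d) ρ y) (gy (Gs d) ρ y)) (sq_nonneg _)
        _ = ρ y * A y * (ρ y * B y) := by ring)
  refine hCS.trans ?_
  have hSA : ∑ y, ρ y * A y ≤ e1 := by
    have h3 : ∑ y, ρ y * A y = ∑ x ∈ W, ∑ x' ∈ W, mt (Gs i) W μ (q i) x x' * lk (Gs d) ρ x x' := by
      simp only [hA, mul_sum]
      rw [sum_comm]
      refine sum_congr rfl fun x _ => ?_
      rw [sum_comm]
      refine sum_congr rfl fun x' _ => ?_
      rw [lk_eq hq, mul_sum]
      exact sum_congr rfl fun y _ => by ring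
    rw [h3]
    exact hS.lam i d hi hd
  have hSB : ∑ y, ρ y * B y = 1 := by
    have h3 : ∑ y, ρ y * B y = ∑ v ∈ W, μ v * ∑ y, ρ y * gy (Gs d) ρ y v ^ 2 := by
      simp only [hBdef, mul_sum]
      rw [sum_comm]
      exact sum_congr rfl fun v _ => sum_congr rfl fun y _ => by ring
    rw [h3, ← hB.μ1]
    refine sum_congr rfl fun v hv => ?_
    rw [sum_gy (hB.apos d hd v hv), mul_one]
  rw [hSB, mul_one]
  exact hSA

end Pool.Agent.Lib.FGP
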