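import Pool.Agent.Lib.FGP.Stmts
import Pool.Agent.Lib.FGF.LRec

/-!
# Theorem L on pairs: the probability of a conflict
-/

set_option autoImplicit false

namespace Pool.Agent.Lib.FGP

open Finset Classical
open Pool.Agent.Lib.FracGS (nb wnb om TAdj)
open Pool.Agent.Lib.GSR3 (Stab Tree)
open Pool.Agent.Lib.FGL (aw Dw lk mt Conf root WN wv rn HN hv lev hr kw prb Top Clean)

open Pool.Agent.Lib.FGL.LRecAux in
theorem stPRec (h0 : StPSub) (h1 : StPKer) (h2 : StPMarg) (h5 : StPTwo) (h6 : StPOne) (h7 : StPCls) :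
    StPRec := by
  intro M d
  induction d with
  | zero =>
    refine ⟨0, le_rfl, ?_⟩
    intro V ι _ G p W μ J q xi e1 _ _ _ eta _
    rw [zero_mul]
    apply le_of_eq
    apply prb_false
    rintro x ⟨-, hx⟩
    exact hx trivial
  | succ d ih =>
    obtain ⟨C, hC, ihC⟩ := ih
    set nM : ℝ := (Fintype.card (Fin (M + 1)) : ℝ) with hnM
    set nW : ℝ := (Fintype.card (WN M d) : ℝ) with hnW
    set nH : ℝ := (Fintype.card (HN M d) : ℝ) with hnH
    have hnM0 : 0 ≤ nM := Nat.cast_nonneg _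
    have hnW0 : 0 ≤ nW := Nat.cast_nonneg _
    have hnH0 : 0 ≤ nH := Nat.cast_nonneg _
    refine ⟨1 + nM * C + nM * nW + nM * nW + nM * nH + nM * (nM * (nW * nW)) +
      nM * (nM * (nW * nH)), by positivity, ?_⟩
    intro V ι _ G p W μ J q xi e1 hS hxi he1 eta heta
    set Gs : ℕ → SimpleGraph V := fun i => gp G (p i) with hGs
    obtain ⟨hB, hsub, -⟩ := h0 V ι G p W μ (d + 1) J q xi e1 hS
    have hSd : PSys G p W μ d J q xi e1 :=
      hsub d id (fun i hi => Nat.lt_succ_of_lt hi) (fun i j hij _ => hij)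
    have ihd := ihC V ι G p W μ J q xi e1 hSd hxi he1 eta heta
    -- the bound
    set B : ℝ := eta + Real.sqrt e1 + xi + 2 * xi / eta with hBdef
    have hsq : 0 ≤ Real.sqrt e1 := Real.sqrt_nonneg _
    have hxe : 0 ≤ 2 * xi / eta := by positivity
    have hB0 : 0 ≤ B := by linarith
    have b1 : eta ≤ B := by linarith
    have b3 : Real.sqrt e1 ≤ B := by linarith
    have b4 : xi ≤ B := by linarith
    have b6 : 2 * xi / eta ≤ B := by linarith
    -- the facts on the law
    obtain ⟨hK1, hK2⟩ := h1 M V Gs W μ (d + 1) q hB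
    have hw : ∀ x, 0 ≤ cwp Gs W μ q M (d + 1) x := (hK1 (d + 1) le_rfl).1
    obtain ⟨-, -, -, -, -, hcopy, -⟩ := hK2 d (Nat.lt_succ_self d)
    obtain ⟨-, -, -, hlevd, hhrd, hrootd, hsuppd⟩ := h2 M V Gs W μ (d + 1) q hB d (Nat.le_succ d)
    obtain ⟨hO1, hO2⟩ := h6 M V ι G p W μ (d + 1) J q xi e1 hS hxi he1 d
      (Nat.lt_succ_self d) eta heta
    have hT := h5 M V ι G p W μ (d + 1) J q xi e1 hS hxi d
      (Nat.lt_succ_self d) eta heta
    -- the events
    set w := cwp Gs W μ q M (d + 1) with hwdef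
    let A0 : Conf M V (d + 1) → Prop := fun x => Dw (Gs d) W μ (q d) x.1 < eta
    let A1 : Fin (M + 1) → Conf M V (d + 1) → Prop := fun e x =>
      OKp Gs q d (x.2 e) ∧ ¬ Clean G d (x.2 e)
    let A2 : Fin (M + 1) → WN M d → Conf M V (d + 1) → Prop := fun e u x =>
      x.1 = wv d (x.2 e) u
    let A3 : Fin (M + 1) → WN M d → Conf M V (d + 1) → Prop := fun e u x =>
      u ≠ rn M d ∧ Top (Gs d) (q d) d (x.2 e) ∧ (Gs d).Adj x.1 (wv d (x.2 e) u)
    let A4 : Fin (M + 1) → HN M d → Conf M V (d + 1) → Prop := fun e h x =>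
      x.1 = hv d (x.2 e) h
    let A5 : Fin (M + 1) → Fin (M + 1) → WN M d → WN M d → Conf M V (d + 1) → Prop :=
      fun e e' u u' x => e ≠ e' ∧ eta ≤ Dw (Gs d) W μ (q d) x.1 ∧
        Top (Gs d) (q d) d (x.2 e) ∧ (wv d (x.2 e) u = wv d (x.2 e') u' ∨
          (Gs d).Adj (wv d (x.2 e) u) (wv d (x.2 e') u'))
    let A6 : Fin (M + 1) → Fin (M + 1) → WN M d → HN M d → Conf M V (d + 1) → Prop :=
      fun e e' u h' x => e ≠ e' ∧ eta ≤ Dw (Gs d) W μ (q d) x.1 ∧ Top (Gs d) (q d) d (x.2 e) ∧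
          (wv d (x.2 e) u = hv d (x.2 e') h' ∨ (Gs d).Adj (wv d (x.2 e) u) (hv d (x.2 e') h'))
    -- their probabilities
    have p0 : prb w A0 ≤ B := hO1.trans b1
    have p1 : ∀ e, prb w (A1 e) ≤ C * B := by
      intro e
      refine le_trans (le_of_eq ?_) ihd
      have h3 := hcopy e (fun f => if OKp Gs q d f ∧ ¬ Clean G d f then 1 else 0)
      have g1 : prb w (A1 e) = ∑ x, w x *
          (if OKp Gs q d (x.2 e) ∧ ¬ Clean G d (x.2 e) then (1 : ℝ) else 0) := by
        unfold prb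
        apply Finset.sum_congr rfl
        intro x _
        exact ite_aux _ _ _ _
      have g2 : prb (cwp Gs W μ q M d) (fun x => OKp Gs q d x ∧ ¬ Clean G d x) =
          ∑ f, cwp Gs W μ q M d f * (if OKp Gs q d f ∧ ¬ Clean G d f then (1 : ℝ) else 0) := by
        unfold prb
        apply Finset.sum_congr rfl
        intro x _
        exact ite_aux _ _ _ _
      rw [g1, g2]
      exact h3
    have p2 : ∀ e u, prb w (A2 e u) ≤ B := fun e u => ((hO2 e).2.1 u).trans b4
    have p3 : ∀ e u, prb w (A3 e u) ≤ B := by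
      intro e u
      by_cases hu : u = rn M d
      · rw [prb_false]
        · exact hB0
        · rintro x ⟨hx, -⟩
          exact hx hu
      · refine le_trans (prb_mono hw ?_) (((hO2 e).1 u hu).trans b3)
        rintro x - ⟨-, hx⟩
        exact hx
    have p4 : ∀ e h, prb w (A4 e h) ≤ B := fun e h => ((hO2 e).2.2 h).trans b4
    have p5 : ∀ e e' u u', prb w (A5 e e' u u') ≤ B := by
      intro e e' u u'
      by_cases hee : e = e'
      · rw [prb_false]
        · exact hB0
        · rintro x ⟨hx, -⟩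
          exact hx hee
      · refine le_trans (prb_mono hw ?_) (((hT e e' hee).1 u u').trans b6)
        rintro x - ⟨-, hx⟩
        exact hx
    have p6 : ∀ e e' u h', prb w (A6 e e' u h') ≤ B := by
      intro e e' u h'
      by_cases hee : e = e'
      · rw [prb_false]
        · exact hB0
        · rintro x ⟨hx, -⟩
          exact hx hee
      · refine le_trans (prb_mono hw ?_) (((hT e e' hee).2 u h').trans b6)
        rintro x - ⟨-, hx⟩
        exact hx
    -- the inclusion
    have hincl : ∀ x, w x ≠ 0 → (OKp Gs q (d + 1) x ∧ ¬ Clean G (d + 1) x) →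
        A0 x ∨ (∃ e, A1 e x) ∨ (∃ e u, A2 e u x) ∨ (∃ e u, A3 e u x) ∨ (∃ e h, A4 e h x) ∨
        (∃ e e' u u', A5 e e' u u' x) ∨ (∃ e e' u h', A6 e e' u h' x) := by
      rintro x hx ⟨hOK, hNC⟩
      by_contra hno
      simp only [not_or, not_exists] at hno
      obtain ⟨n0, n1, n2, n3, n4, n5, n6⟩ := hno
      apply hNC
      have hD : eta ≤ Dw (Gs d) W μ (q d) x.1 := not_lt.1 n0
      have hxe : w x = q d x.1 * Dw (Gs d) W μ (q d) x.1 *
          ∏ e, kw (Gs d) W μ (q d) (root d) (cwp Gs W μ q M d) x.1 (x.2 e) := rfl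
      rw [hxe] at hx
      have hq0 : q d x.1 ≠ 0 := left_ne_zero_of_mul (left_ne_zero_of_mul hx)
      have hkw : ∀ e, kw (Gs d) W μ (q d) (root d) (cwp Gs W μ q M d) x.1 (x.2 e) ≠ 0 := fun e =>
        Finset.prod_ne_zero_iff.1 (right_ne_zero_of_mul hx) e (Finset.mem_univ e)
      have hcw : ∀ e, cwp Gs W μ q M d (x.2 e) ≠ 0 := by
        intro e h3
        apply hkw e
        unfold kw
        rw [h3, zero_mul, zero_div]
      have hadj : ∀ e, (Gs d).Adj x.1 (root d (x.2 e)) := by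
        intro e
        by_contra h3
        apply hkw e
        unfold kw
        rw [if_neg h3, mul_zero, zero_div]
      have hxJ : x.1 ∈ J := by
        by_contra h3
        exact hq0 (hS.qJ d (Nat.lt_succ_self d) x.1 h3)
      have hhJ : ∀ e h, hv d (x.2 e) h ∈ J := by
        intro e h
        by_contra h3
        exact (hsuppd (x.2 e) (hcw e)).2.1 h
          (hS.qJ (lev d h) ((hlevd h).trans (Nat.lt_succ_self d)) _ h3)
      have hhadj : ∀ e h, G.Adj (hr d (x.2 e) h) (hv d (x.2 e) h) := fun e h =>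
        ((hsuppd (x.2 e) (hcw e)).2.2 h).1
      have hcl := fun e => h7 M V ι G p W μ q d d le_rfl
        (fun i i' hi hi' => hS.ref i i' hi (Nat.lt_succ_of_le hi')) (x.2 e) (hcw e)
      have hgr : ∀ e, p d x.1 = p d (root d (x.2 e)) := fun e => (hadj e).2
      have hrr : ∀ e e', p d (root d (x.2 e)) = p d (root d (x.2 e')) := fun e e' =>
        (hgr e).symm.trans (hgr e')
      have hTop : ∀ e, Top (Gs d) (q d) d (x.2 e) := fun e => (hOK e).2
      have hwh : ∀ e e', e ≠ e' → ∀ u h, ¬ G.Adj (wv d (x.2 e) u) (hv d (x.2 e') h) := by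
        intro e e' hee u h h3
        exact n6 e e' u h ⟨hee, hD, hTop e, Or.inr ⟨h3,
          (((hcl e).1 u).trans (hrr e e')).trans ((hcl e').2 h).symm⟩⟩
      refine ⟨?_, fun e => (hadj e).1, ?_, ?_, ?_, ?_, ?_, ?_, ?_⟩
      · intro e
        by_contra h3
        exact n1 e ⟨(hOK e).1, h3⟩
      · intro e u hu h3
        exact n3 e u ⟨hu, hTop e, ⟨h3, (hgr e).trans ((hcl e).1 u).symm⟩⟩
      · intro e u h3
        exact n2 e u h3
      · intro e h h3
        exact hS.stab _ hxJ _ (hhJ e h) h3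
      · intro e h h3
        exact n4 e h h3
      · intro e e' hee u u'
        refine ⟨fun h3 => ?_, fun h3 => ?_⟩
        · exact n5 e e' u u' ⟨hee, hD, hTop e, Or.inl h3⟩
        · exact n5 e e' u u' ⟨hee, hD, hTop e, Or.inr ⟨h3,
            (((hcl e).1 u).trans (hrr e e')).trans ((hcl e').1 u').symm⟩⟩
      · intro e e' hee u h
        refine ⟨fun h3 => ?_, hwh e e' hee u h⟩
        exact n6 e e' u h ⟨hee, hD, hTop e, Or.inl h3⟩
      · intro e e' hee h h'
        refine ⟨fun h3 => ?_, fun h3 => ?_⟩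
        · obtain ⟨u, hu⟩ := hhrd h
          have h4 := hhadj e h
          rw [hu (x.2 e), h3] at h4
          exact hwh e e' hee u h' h4
        · exact hS.stab _ (hhJ e h) _ (hhJ e' h') h3
    -- the union bound
    refine (prb_mono hw hincl).trans ?_
    have u1 : prb w (fun x => ∃ e, A1 e x) ≤ nM * (C * B) := prb_ex hw A1 p1
    have u2 : prb w (fun x => ∃ e u, A2 e u x) ≤ nM * (nW * B) :=
      prb_ex hw (fun e x => ∃ u, A2 e u x) (fun e => prb_ex hw (A2 e) (p2 e))
    have u3 : prb w (fun x => ∃ e u, A3 e u x) ≤ nM * (nW * B) :=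
      prb_ex hw (fun e x => ∃ u, A3 e u x) (fun e => prb_ex hw (A3 e) (p3 e))
    have u4 : prb w (fun x => ∃ e h, A4 e h x) ≤ nM * (nH * B) :=
      prb_ex hw (fun e x => ∃ h, A4 e h x) (fun e => prb_ex hw (A4 e) (p4 e))
    have u5 : prb w (fun x => ∃ e e' u u', A5 e e' u u' x) ≤ nM * (nM * (nW * (nW * B))) :=
      prb_ex hw (fun e x => ∃ e' u u', A5 e e' u u' x) (fun e =>
        prb_ex hw (fun e' x => ∃ u u', A5 e e' u u' x) (fun e' =>
          prb_ex hw (fun u x => ∃ u', A5 e e' u u' x) (fun u =>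
            prb_ex hw (A5 e e' u) (p5 e e' u))))
    have u6 : prb w (fun x => ∃ e e' u h', A6 e e' u h' x) ≤ nM * (nM * (nW * (nH * B))) :=
      prb_ex hw (fun e x => ∃ e' u h', A6 e e' u h' x) (fun e =>
        prb_ex hw (fun e' x => ∃ u h', A6 e e' u h' x) (fun e' =>
          prb_ex hw (fun u x => ∃ h', A6 e e' u h' x) (fun u =>
            prb_ex hw (A6 e e' u) (p6 e e' u))))
    refine (prb_or hw _ _).trans ?_
    refine (add_le_add p0 ((prb_or hw _ _).trans (add_le_add u1 ((prb_or hw _ _).trans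
      (add_le_add u2 ((prb_or hw _ _).trans (add_le_add u3 ((prb_or hw _ _).trans
      (add_le_add u4 ((prb_or hw _ _).trans (add_le_add u5 u6))))))))))).trans (le_of_eq ?_)
    ring

end Pool.Agent.Lib.FGP
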