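import Pool.Agent.Lib.FGP.Defs

/-!
# Theorem L on pairs (statements)
-/

set_option autoImplicit false

namespace Pool.Agent.Lib.FGP

open Finset Classical
open Pool.Agent.Lib.FracGS (nb wnb om TAdj)
open Pool.Agent.Lib.GSR3 (Stab Tree)
open Pool.Agent.Lib.FGL (aw Dw lk mt Conf root WN wv rn HN hv lev hr kw prb Top Clean)

/-- Module `PSub`: subsystems along increasing maps; weakening of the constants. -/
def StPSub : Prop :=
  ∀ (V ι : Type) [Fintype V] (G : SimpleGraph V) (p : ℕ → V → ι) (W : Finset V) (μ : V → ℝ)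
    (r : ℕ) (J : Finset V) (q : ℕ → V → ℝ) (xi e1 : ℝ),
    PSys G p W μ r J q xi e1 → PBas (fun i => gp G (p i)) W μ r q ∧
      (∀ (d : ℕ) (c : ℕ → ℕ), (∀ i < d, c i < r) → (∀ i j, i < j → j < d → c i < c j) →
        PSys G (fun i => p (c i)) W μ d J (fun i => q (c i)) xi e1) ∧
      (∀ xi' e1' : ℝ, xi ≤ xi' → e1 ≤ e1' → PSys G p W μ r J q xi' e1')

/-- Module `PKer`: the kernel at a hub and the law of the copies. -/
def StPKer : Prop :=
  ∀ (M : ℕ) (V : Type) [Fintype V] (Gs : ℕ → SimpleGraph V) (W : Finset V) (μ : V → ℝ) (r : ℕ)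
    (q : ℕ → V → ℝ), PBas Gs W μ r q →
    (∀ d ≤ r, (∀ x, 0 ≤ cwp Gs W μ q M d x) ∧ ∑ x, cwp Gs W μ q M d x = 1 ∧
      (∀ F : V → ℝ, ∑ x, cwp Gs W μ q M d x * F (root d x) = ∑ v ∈ W, μ v * F v)) ∧
    (∀ d < r, (∀ g f, 0 ≤ kw (Gs d) W μ (q d) (root d) (cwp Gs W μ q M d) g f) ∧
      (∀ g, 0 ≤ Dw (Gs d) W μ (q d) g) ∧
      (∀ g, 0 < Dw (Gs d) W μ (q d) g →
        ∑ f, kw (Gs d) W μ (q d) (root d) (cwp Gs W μ q M d) g f = 1) ∧
      (∀ (e : Fin (M + 1)) (F : V → Conf M V d → ℝ),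
        ∑ x, cwp Gs W μ q M (d + 1) x * F x.1 (x.2 e) =
          ∑ g, q d g * Dw (Gs d) W μ (q d) g *
            ∑ f, kw (Gs d) W μ (q d) (root d) (cwp Gs W μ q M d) g f * F g f) ∧
      (∀ (e : Fin (M + 1)) (F : V → Conf M V d → ℝ),
        ∑ x, cwp Gs W μ q M (d + 1) x * F x.1 (x.2 e) =
          ∑ f, cwp Gs W μ q M d f / aw (Gs d) (q d) (root d f) *
            ∑ g, if (Gs d).Adj (root d f) g then q d g * F g f else 0) ∧
      (∀ (e : Fin (M + 1)) (F : Conf M V d → ℝ),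
        ∑ x, cwp Gs W μ q M (d + 1) x * F (x.2 e) = ∑ f, cwp Gs W μ q M d f * F f) ∧
      (∀ e e' : Fin (M + 1), e ≠ e' → ∀ F : V → Conf M V d → Conf M V d → ℝ,
        ∑ x, cwp Gs W μ q M (d + 1) x * F x.1 (x.2 e) (x.2 e') =
          ∑ g, q d g * Dw (Gs d) W μ (q d) g *
            ∑ f', kw (Gs d) W μ (q d) (root d) (cwp Gs W μ q M d) g f' *
              ∑ f, kw (Gs d) W μ (q d) (root d) (cwp Gs W μ q M d) g f * F g f f') ∧
      (∀ P : Conf M V d → ℝ,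
        ∑ x, cwp Gs W μ q M (d + 1) x * ∏ e, P (x.2 e) =
          ∑ g, q d g * Dw (Gs d) W μ (q d) g *
            (∑ f, kw (Gs d) W μ (q d) (root d) (cwp Gs W μ q M d) g f * P f) ^ (M + 1)) ∧
      (∀ (σ : Equiv.Perm (Fin (M + 1))) (F : V → (Fin (M + 1) → Conf M V d) → ℝ),
        ∑ x, cwp Gs W μ q M (d + 1) x * F x.1 (fun e => x.2 (σ e)) =
          ∑ x, cwp Gs W μ q M (d + 1) x * F x.1 x.2))

/-- Module `PMarg`: the marginals and the support. -/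
def StPMarg : Prop :=
  ∀ (M : ℕ) (V : Type) [Fintype V] (Gs : ℕ → SimpleGraph V) (W : Finset V) (μ : V → ℝ) (r : ℕ)
    (q : ℕ → V → ℝ), PBas Gs W μ r q → ∀ d ≤ r,
      (∀ (u : WN M d) (F : V → ℝ),
        ∑ x, cwp Gs W μ q M d x * F (wv d x u) = ∑ v ∈ W, μ v * F v) ∧
      (∀ (h : HN M d) (F : V → V → ℝ),
        ∑ x, cwp Gs W μ q M d x * F (hr d x h) (hv d x h) =
          ∑ v ∈ W, μ v / aw (Gs (lev d h)) (q (lev d h)) v *
            ∑ y, if (Gs (lev d h)).Adj v y then q (lev d h) y * F v y else 0) ∧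
      (∀ (h : HN M d) (F : V → ℝ),
        ∑ x, cwp Gs W μ q M d x * F (hv d x h) =
          ∑ y, q (lev d h) y * Dw (Gs (lev d h)) W μ (q (lev d h)) y * F y) ∧
      (∀ h : HN M d, lev d h < d) ∧
      (∀ h : HN M d, ∃ u : WN M d, ∀ x : Conf M V d, hr d x h = wv d x u) ∧
      (∀ x : Conf M V d, root d x = wv d x (rn M d)) ∧
      (∀ x, cwp Gs W μ q M d x ≠ 0 → (∀ u, wv d x u ∈ W) ∧
        (∀ h, q (lev d h) (hv d x h) ≠ 0) ∧ (∀ h, (Gs (lev d h)).Adj (hr d x h) (hv d x h)))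

/-- Module `PCls`: all the vertices of a configuration of depth `d` lie in one class of the
level `d` (the classes get coarser for larger levels). -/
def StPCls : Prop :=
  ∀ (M : ℕ) (V ι : Type) [Fintype V] (G : SimpleGraph V) (p : ℕ → V → ι) (W : Finset V)
    (μ : V → ℝ) (q : ℕ → V → ℝ) (j d : ℕ), d ≤ j →
      (∀ i i', i < i' → i' ≤ j → ∀ x y, p i x = p i y → p i' x = p i' y) →
      ∀ x : Conf M V d, cwp (fun i => gp G (p i)) W μ q M d x ≠ 0 →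
        (∀ u, p j (wv d x u) = p j (root d x)) ∧ (∀ h, p j (hv d x h) = p j (root d x))

/-- Module `PTwo`: conflicts between two copies. -/
def StPTwo : Prop :=
  ∀ (M : ℕ) (V ι : Type) [Fintype V] (G : SimpleGraph V) (p : ℕ → V → ι) (W : Finset V)
    (μ : V → ℝ) (r : ℕ) (J : Finset V) (q : ℕ → V → ℝ) (xi e1 : ℝ),
    PSys G p W μ r J q xi e1 → 0 ≤ xi → ∀ d < r, ∀ eta : ℝ, 0 < eta →
      ∀ e e' : Fin (M + 1), e ≠ e' →
      (∀ u u' : WN M d, prb (cwp (fun i => gp G (p i)) W μ q M (d + 1)) (fun x =>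
        eta ≤ Dw (gp G (p d)) W μ (q d) x.1 ∧
        Top (gp G (p d)) (q d) d (x.2 e) ∧ (wv d (x.2 e) u = wv d (x.2 e') u' ∨
          (gp G (p d)).Adj (wv d (x.2 e) u) (wv d (x.2 e') u'))) ≤ 2 * xi / eta) ∧
      (∀ (u : WN M d) (h' : HN M d), prb (cwp (fun i => gp G (p i)) W μ q M (d + 1)) (fun x =>
        eta ≤ Dw (gp G (p d)) W μ (q d) x.1 ∧ Top (gp G (p d)) (q d) d (x.2 e) ∧
          (wv d (x.2 e) u = hv d (x.2 e') h' ∨
            (gp G (p d)).Adj (wv d (x.2 e) u) (hv d (x.2 e') h'))) ≤ 2 * xi / eta)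

/-- Module `POp`: links between the root and another vertex. -/
def StPOp : Prop :=
  ∀ (M : ℕ) (V ι : Type) [Fintype V] (G : SimpleGraph V) (p : ℕ → V → ι) (W : Finset V)
    (μ : V → ℝ) (r : ℕ) (J : Finset V) (q : ℕ → V → ℝ) (xi e1 : ℝ),
    PSys G p W μ r J q xi e1 → 0 ≤ e1 → ∀ d < r, ∀ u : WN M d, u ≠ rn M d →
      ∑ x, cwp (fun i => gp G (p i)) W μ q M d x *
        lk (gp G (p d)) (q d) (root d x) (wv d x u) ≤ Real.sqrt e1

/-- Module `POne`: conflicts between the outer hub and a copy. -/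
def StPOne : Prop :=
  ∀ (M : ℕ) (V ι : Type) [Fintype V] (G : SimpleGraph V) (p : ℕ → V → ι) (W : Finset V)
    (μ : V → ℝ) (r : ℕ) (J : Finset V) (q : ℕ → V → ℝ) (xi e1 : ℝ),
    PSys G p W μ r J q xi e1 → 0 ≤ xi → 0 ≤ e1 → ∀ d < r, ∀ eta : ℝ, 0 < eta →
      prb (cwp (fun i => gp G (p i)) W μ q M (d + 1))
        (fun x => Dw (gp G (p d)) W μ (q d) x.1 < eta) ≤ eta ∧
      ∀ e : Fin (M + 1),
      (∀ u : WN M d, u ≠ rn M d → prb (cwp (fun i => gp G (p i)) W μ q M (d + 1)) (fun x =>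
        Top (gp G (p d)) (q d) d (x.2 e) ∧ (gp G (p d)).Adj x.1 (wv d (x.2 e) u)) ≤
          Real.sqrt e1) ∧
      (∀ u : WN M d, prb (cwp (fun i => gp G (p i)) W μ q M (d + 1))
        (fun x => x.1 = wv d (x.2 e) u) ≤ xi) ∧
      (∀ h : HN M d, prb (cwp (fun i => gp G (p i)) W μ q M (d + 1))
        (fun x => x.1 = hv d (x.2 e) h) ≤ xi)

/-- Module `PRec`: the probability of a conflict. -/
def StPRec : Prop :=
  ∀ (M d : ℕ), ∃ C : ℝ, 0 ≤ C ∧ ∀ (V ι : Type) [Fintype V] (G : SimpleGraph V)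
    (p : ℕ → V → ι) (W : Finset V) (μ : V → ℝ) (J : Finset V) (q : ℕ → V → ℝ) (xi e1 : ℝ),
    PSys G p W μ d J q xi e1 → 0 ≤ xi → 0 ≤ e1 → ∀ eta : ℝ, 0 < eta →
      prb (cwp (fun i => gp G (p i)) W μ q M d)
        (fun x => OKp (fun i => gp G (p i)) q d x ∧ ¬ Clean G d x) ≤
        C * (eta + Real.sqrt e1 + xi + 2 * xi / eta)

/-- Module `POK`: the stages can be chosen such that the roots are on top. -/
def StPOK : Prop :=
  ∀ (M d r' : ℕ), ∃ (r : ℕ) (κ : ℝ), 0 < κ ∧ ∀ (V : Type) [Fintype V] (Gs : ℕ → SimpleGraph V)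
    (W : Finset V) (μ : V → ℝ) (q : ℕ → V → ℝ), PBas Gs W μ r q →
      ∃ (c : ℕ → ℕ) (R : Finset ℕ), (∀ i < d, c i < r) ∧ (∀ i j, i < j → j < d → c i < c j) ∧
        (∀ s ∈ R, s < r ∧ ∀ i < d, c i < s) ∧ R.card = r' ∧
        κ ≤ prb (cwp (fun i => Gs (c i)) W μ (fun i => q (c i)) M d) (fun x =>
          OKp (fun i => Gs (c i)) (fun i => q (c i)) d x ∧ ∀ s ∈ R, Top (Gs s) (q s) d x)

/-- Module `PThm`: Theorem L on pairs. -/
def StPThm : Prop :=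
  ∀ M h : ℕ, ∃ (r : ℕ) (e1 xi : ℝ), 0 < e1 ∧ 0 < xi ∧
    ∀ (V ι : Type) [Fintype V] (G : SimpleGraph V) (p : ℕ → V → ι) (W : Finset V) (μ : V → ℝ)
      (J : Finset V) (q : ℕ → V → ℝ), PSys G p W μ r J q xi e1 →
        ∃ φ : List (Fin M) → V, Tree G h M φ

end Pool.Agent.Lib.FGP
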