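import Pool.Agent.Lib.FGP.Stmts
import Pool.Agent.Lib.FGF.LTwo
import Pool.Agent.Lib.FGF.LDen

/-!
# Theorem L on pairs: conflicts between two copies
-/

set_option autoImplicit false

namespace Pool.Agent.Lib.FGP

open Finset Classical
open Pool.Agent.Lib.FracGS (nb wnb om TAdj)
open Pool.Agent.Lib.GSR3 (Stab Tree)
open Pool.Agent.Lib.FGL (aw Dw lk mt Conf root WN wv rn HN hv lev hr kw prb Top Clean)

open Pool.Agent.Lib.FGL.LTwoAux (aw_eq Dw_eq aw_nonneg ind ind_pos ind_neg ind_nonneg ind_and prb_eq)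

namespace PTwo

section main

variable {M : ℕ} {V : Type} [Fintype V] {Gs : ℕ → SimpleGraph V} {W : Finset V} {μ : V → ℝ} {r : ℕ}
  {q : ℕ → V → ℝ}

theorem bound (h1 : StPKer) (hB : PBas Gs W μ r q) {d : ℕ} (hd : d < r) (e e' : Fin (M + 1))
    (hne : e ≠ e') (eta : ℝ) (F : V → Conf M V d → Conf M V d → ℝ) (Ψ : Conf M V d → ℝ)
    (hΨ0 : ∀ f', cwp Gs W μ q M d f' ≠ 0 → 0 ≤ Ψ f')
    (hF0 : ∀ g f f', ¬ eta ≤ Dw (Gs d) W μ (q d) g → F g f f' = 0)
    (hF : ∀ g, eta ≤ Dw (Gs d) W μ (q d) g → ∀ f', cwp Gs W μ q M d f' ≠ 0 →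
      ∑ f, kw (Gs d) W μ (q d) (root d) (cwp Gs W μ q M d) g f * F g f f' ≤ Ψ f') :
    ∑ x, cwp Gs W μ q M (d + 1) x * F x.1 (x.2 e) (x.2 e') ≤ ∑ f', cwp Gs W μ q M d f' * Ψ f' := by
  obtain ⟨k0, D0, -, kF, -, kM, k2, -, -⟩ := (h1 M V Gs W μ r q hB).2 d hd
  rw [k2 e e' hne F]
  rw [← kM e' Ψ, kF e' (fun _ f => Ψ f)]
  refine Finset.sum_le_sum fun g _ => ?_
  refine mul_le_mul_of_nonneg_left ?_ (mul_nonneg (hB.q0 d hd g) (D0 g))
  refine Finset.sum_le_sum fun f' _ => ?_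
  by_cases hf : cwp Gs W μ q M d f' = 0
  · have : kw (Gs d) W μ (q d) (root d) (cwp Gs W μ q M d) g f' = 0 := by
      unfold kw
      rw [hf, zero_mul, zero_div]
    rw [this, zero_mul, zero_mul]
  · refine mul_le_mul_of_nonneg_left ?_ (k0 g f')
    by_cases hg : eta ≤ Dw (Gs d) W μ (q d) g
    · exact hF g hg f' hf
    · have : ∑ f, kw (Gs d) W μ (q d) (root d) (cwp Gs W μ q M d) g f * F g f f' = 0 := by
        refine Finset.sum_eq_zero fun f _ => ?_
        rw [hF0 g f f' hg, mul_zero]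
      rw [this]
      exact hΨ0 f' hf

theorem bound' (h1 : StPKer) (hB : PBas Gs W μ r q) {d : ℕ} (hd : d < r) (e e' : Fin (M + 1))
    (hne : e ≠ e') (eta : ℝ) (F : V → Conf M V d → Conf M V d → ℝ) (B : ℝ) (hB0 : 0 ≤ B)
    (hF0 : ∀ g f f', ¬ eta ≤ Dw (Gs d) W μ (q d) g → F g f f' = 0)
    (hF : ∀ g, eta ≤ Dw (Gs d) W μ (q d) g → ∀ f', cwp Gs W μ q M d f' ≠ 0 →
      ∑ f, kw (Gs d) W μ (q d) (root d) (cwp Gs W μ q M d) g f * F g f f' ≤ B) :
    ∑ x, cwp Gs W μ q M (d + 1) x * F x.1 (x.2 e) (x.2 e') ≤ B := by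
  refine (bound h1 hB hd e e' hne eta F (fun _ => B) (fun _ _ => hB0) hF0 hF).trans ?_
  rw [← Finset.sum_mul, ((h1 M V Gs W μ r q hB).1 d hd.le).2.1, one_mul]

end main

end PTwo

open PTwo in
theorem stPTwo (h0 : StPSub) (h1 : StPKer) (h2 : StPMarg) : StPTwo := by
  intro M V ι _ G p W μ r J q xi e1 hS hxi d hd eta heta e e' hne
  set Gs : ℕ → SimpleGraph V := fun i => gp G (p i) with hGs
  have hB : PBas Gs W μ r q := (h0 V ι G p W μ r J q xi e1 hS).1
  have hcw : ∀ x, 0 ≤ cwp Gs W μ q M d x := ((h1 M V Gs W μ r q hB).1 d hd.le).1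
  obtain ⟨m1, -, mh, ml, -, -, ms⟩ := h2 M V Gs W μ r q hB d hd.le
  have hsupp := ms
  have hq0 := hB.q0 d hd
  -- the density of a vertex of the copy
  have hden : ∀ g : V, eta ≤ Dw (Gs d) W μ (q d) g → ∀ F : V → ℝ, (∀ v, 0 ≤ F v) → ∀ u : WN M d,
      (∑ f, if Top (Gs d) (q d) d f then
          kw (Gs d) W μ (q d) (root d) (cwp Gs W μ q M d) g f * F (wv d f u) else 0) ≤
        (∑ z ∈ W, μ z / aw (Gs d) (q d) z * F z) / eta := by
    intro g hg F hF u
    have key : ∀ f : Conf M V d, (if Top (Gs d) (q d) d f then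
          kw (Gs d) W μ (q d) (root d) (cwp Gs W μ q M d) g f * F (wv d f u) else 0) ≤
        cwp Gs W μ q M d f * (F (wv d f u) / aw (Gs d) (q d) (wv d f u)) / eta := by
      intro f
      refine Pool.Agent.Lib.FGL.LDenAux.kw_le (Gs d) W μ (q d) (root d) (cwp Gs W μ q M d) g f (wv d f u) eta F _ (hcw f)
        hq0 hF heta hg ?_
      intro hT hne
      exact ⟨hB.apos d hd _ ((hsupp f hne).1 u), hT u⟩
    refine (Finset.sum_le_sum fun f _ => key f).trans (le_of_eq ?_)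
    rw [← Finset.sum_div]
    have := m1 u (fun v => F v / aw (Gs d) (q d) v)
    rw [this]
    congr 1
    refine Finset.sum_congr rfl fun z _ => ?_
    ring
  -- the law of a vertex near a given vertex
  have hnear : ∀ y' : V, (y' ∈ W → μ y' / aw (Gs d) (q d) y' ≤ xi) → Dw (Gs d) W μ (q d) y' ≤ xi →
      ∑ z ∈ W, μ z / aw (Gs d) (q d) z * ind (z = y' ∨ (Gs d).Adj z y') ≤ 2 * xi := by
    intro y' hy1 hy2
    have h6 : ∑ z ∈ W, μ z / aw (Gs d) (q d) z * ind (z = y' ∨ (Gs d).Adj z y') ≤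
        ∑ z ∈ W, ((if z = y' then μ z / aw (Gs d) (q d) z else 0) +
          (if (Gs d).Adj y' z then μ z / aw (Gs d) (q d) z else 0)) := by
      refine Finset.sum_le_sum fun z hz => ?_
      have h7 : 0 ≤ μ z / aw (Gs d) (q d) z := div_nonneg (hS.μ0 z) (hS.apos d hd z hz).le
      by_cases ha : z = y'
      · have hb : ¬ (Gs d).Adj y' z := by
          rw [ha]
          exact (Gs d).irrefl
        rw [ind_pos (Or.inl ha), if_pos ha, if_neg hb, mul_one, add_zero]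
      · by_cases hb : (Gs d).Adj y' z
        · rw [ind_pos (Or.inr hb.symm), if_neg ha, if_pos hb, mul_one, zero_add]
        · rw [ind_neg, if_neg ha, if_neg hb, mul_zero, add_zero]
          rintro (h | h)
          · exact ha h
          · exact hb h.symm
    refine h6.trans ?_
    rw [Finset.sum_add_distrib, ← Dw_eq, Finset.sum_ite_eq']
    by_cases hy : y' ∈ W
    · rw [if_pos hy]
      have := hy1 hy
      linarith
    · rw [if_neg hy]
      linarith
  -- the common estimate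
  have hmain : ∀ (u : WN M d) (b : Conf M V d → V),
      (∀ f, cwp Gs W μ q M d f ≠ 0 → Dw (Gs d) W μ (q d) (b f) ≤ xi) →
      prb (cwp Gs W μ q M (d + 1)) (fun x => eta ≤ Dw (Gs d) W μ (q d) x.1 ∧
        Top (Gs d) (q d) d (x.2 e) ∧ (wv d (x.2 e) u = b (x.2 e') ∨
          (Gs d).Adj (wv d (x.2 e) u) (b (x.2 e')))) ≤ 2 * xi / eta := by
    intro u b hb
    rw [prb_eq]
    refine bound' h1 hB hd e e' hne eta
      (fun g f f' => ind (eta ≤ Dw (Gs d) W μ (q d) g ∧ Top (Gs d) (q d) d f ∧ (wv d f u = b f' ∨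
        (Gs d).Adj (wv d f u) (b f')))) (2 * xi / eta) (by positivity)
      (fun g f f' hg => ind_neg fun h => hg h.1) ?_
    intro g hg f' hf'
    have hz' := hb f' hf'
    generalize b f' = z' at hz'
    have h4 := hden g hg (fun z => ind (z = z' ∨ (Gs d).Adj z z')) (fun v => ind_nonneg _) u
    have h5 : ∑ f, kw (Gs d) W μ (q d) (root d) (cwp Gs W μ q M d) g f *
        ind (eta ≤ Dw (Gs d) W μ (q d) g ∧ Top (Gs d) (q d) d f ∧ (wv d f u = z' ∨ (Gs d).Adj (wv d f u) z')) =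
        ∑ f, if Top (Gs d) (q d) d f then kw (Gs d) W μ (q d) (root d) (cwp Gs W μ q M d) g f *
          ind (wv d f u = z' ∨ (Gs d).Adj (wv d f u) z') else 0 := by
      refine Finset.sum_congr rfl fun f _ => ?_
      by_cases ht : Top (Gs d) (q d) d f
      · rw [ind_and hg, ind_and ht, if_pos ht]
      · rw [if_neg ht, ind_neg fun h => ht h.2.1, mul_zero]
    rw [h5]
    refine h4.trans (div_le_div_of_nonneg_right (hnear z' ?_ hz') heta.le)
    intro hzW
    rw [div_le_iff₀ (hS.apos d hd z' hzW)]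
    exact hS.atm d hd z' hzW
  refine ⟨fun u u' => ?_, fun u h' => ?_⟩
  · exact hmain u (fun f' => wv d f' u') fun f' hf' => hS.Dxi d hd _ ((hsupp f' hf').1 u')
  · exact hmain u (fun f' => hv d f' h') fun f' hf' =>
      hS.DxiJ (lev d h') d (ml h') hd _ ((hsupp f' hf').2.1 h')

end Pool.Agent.Lib.FGP
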