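import Pool.Agent.Lib.FGP.Ker
import Pool.Agent.Lib.FGP.Marg
import Pool.Agent.Lib.FGP.Cls
import Pool.Agent.Lib.FGP.Op
import Pool.Agent.Lib.FGP.One
import Pool.Agent.Lib.FGP.Two
import Pool.Agent.Lib.FGP.Rec
import Pool.Agent.Lib.FGP.OKm
import Pool.Agent.Lib.FGF.LEmb
import Pool.Agent.Lib.FGF.LThm

/-!
# Theorem L on pairs: the theorem
-/

set_option autoImplicit false

namespace Pool.Agent.Lib.FGP

open Finset Classical
open Pool.Agent.Lib.FracGS (nb wnb om TAdj)
open Pool.Agent.Lib.GSR3 (Stab Tree)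
open Pool.Agent.Lib.FGL (aw Dw lk mt Conf root WN wv rn HN hv lev hr kw prb Top Clean)

open Pool.Agent.Lib.FGL.LThmAux in
theorem stPThm_of (h0 : StPSub) (h7 : StPRec) (h8 : StPOK) (h9 : Pool.Agent.Lib.FGL.StLEmb) :
    StPThm := by
  intro M h
  obtain ⟨r, κ, hκ, hOK⟩ := h8 M (M * h) 0
  obtain ⟨C, hC, hRec⟩ := h7 M (M * h)
  set κ' : ℝ := min κ 1 with hκ'
  have hk1 : κ' ≤ κ := min_le_left _ _
  have hk2 : κ' ≤ 1 := min_le_right _ _
  have hk0 : 0 < κ' := lt_min hκ one_pos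
  set eta : ℝ := κ' / (8 * (C + 1)) with heta
  have hC1 : 0 < 8 * (C + 1) := by linarith
  have he0 : 0 < eta := div_pos hk0 hC1
  have he1 : eta ≤ 1 := by
    rw [heta, div_le_one hC1]
    linarith
  have heq : eta * (8 * (C + 1)) = κ' := div_mul_cancel₀ _ hC1.ne'
  refine ⟨r, eta ^ 2, eta ^ 2, by positivity, by positivity, ?_⟩
  intro V ι _ G p W μ J q hS
  obtain ⟨hB, hsub, -⟩ := h0 V ι G p W μ r J q _ _ hS
  obtain ⟨c, R, hc1, hc2, -, hR, hκp⟩ := hOK V (fun i => gp G (p i)) W μ q hB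
  have hR0 : R = ∅ := Finset.card_eq_zero.1 hR
  have hS' := hsub (M * h) c hc1 hc2
  have hle := hRec V ι G (fun i => p (c i)) W μ _ _ _ _ hS' (by positivity) (by positivity) eta he0
  have hbound : C * (eta + Real.sqrt (eta ^ 2) + eta ^ 2 + 2 * eta ^ 2 / eta) ≤
      5 * C * eta := by
    rw [Real.sqrt_sq he0.le]
    have h3 : 2 * eta ^ 2 / eta = 2 * eta := by
      field_simp
    rw [h3]
    have h4 : eta ^ 2 ≤ eta := by
      nlinarith
    nlinarith
  have hlt : 5 * C * eta < κ := by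
    have : 5 * C * eta < κ' := by
      rw [← heq]
      nlinarith
    linarith
  have hex : ∃ x : Conf M V (M * h), Clean G (M * h) x := by
    by_contra hcon
    push Not at hcon
    have h1 := prb_congr (cwp (fun i => gp G (p (c i))) W μ (fun i => q (c i)) M (M * h))
      (E := fun x => OKp (fun i => gp G (p (c i))) (fun i => q (c i)) (M * h) x ∧ ∀ s ∈ R, Top (gp G (p s)) (q s) (M * h) x)
      (E' := fun x => OKp (fun i => gp G (p (c i))) (fun i => q (c i)) (M * h) x ∧ ¬ Clean G (M * h) x) (by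
        intro x
        rw [hR0]
        constructor
        · rintro ⟨h1, -⟩
          exact ⟨h1, hcon x⟩
        · rintro ⟨h1, -⟩
          exact ⟨h1, by simp⟩)
    rw [h1] at hκp
    linarith
  obtain ⟨x, hx⟩ := hex
  obtain ⟨φ, hφ⟩ := h9 M h (M * h) le_rfl V G x hx
  exact ⟨φ, fun u w hu hw => hφ.inj u w (by omega) (by omega),
    fun u w hu hw => hφ.adj u w (by omega) (by omega)⟩

/-- Theorem L on pairs. -/
theorem stPThm : StPThm := by
  have h1 : StPKer := stPKer
  have h2 : StPMarg := stPMarg h1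
  have h3 : StPOne := stPOne stPSub h1 h2 (stPOp stPSub h1 h2)
  exact stPThm_of stPSub (stPRec stPSub h1 h2 (stPTwo stPSub h1 h2) h3 stPCls) (stPOK h1)
    Pool.Agent.Lib.FGL.stLEmb

end Pool.Agent.Lib.FGP
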