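import Pool.Agent.Lib.FGP.Stmts
import Pool.Agent.Lib.FGJ.UPool

/-!
# Pools of unlinked stages on pairs (statements)

The stages are numbered from the early ones to the late ones; stage `c` only sees the edges inside
the classes of `p c`, and the classes of late stages are finer.
-/

set_option autoImplicit false

namespace Pool.Agent.Lib.FGP

open Finset Classical
open Pool.Agent.Lib.FracGS (nb wnb om TAdj)
open Pool.Agent.Lib.GSR3 (Stab Tree)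
open Pool.Agent.Lib.FGF (ms nm zt ell Frac)

/-- The stages `c ∈ A` with the hub weights `ρ c`, and the node measure `ν` on `W`. -/
structure UPp {V ι : Type} [Fintype V] (G : SimpleGraph V) (p : ℕ → V → ι) (W : Finset V)
    (ν : V → ℝ) (ρ : ℕ → V → ℝ) (A : Finset ℕ) (ξ : ℝ) : Prop where
  ref : ∀ c ∈ A, ∀ s ∈ A, c < s → ∀ x y, p s x = p s y → p c x = p c y
  ν0 : ∀ x, 0 ≤ ν x
  ρ0 : ∀ c ∈ A, ∀ y, 0 ≤ ρ c y
  ρ1 : ∀ c ∈ A, ∑ y, ρ c y ≤ 1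
  ap : ∀ c ∈ A, ∀ x ∈ W, 0 < nm (gp G (p c)) (ρ c) x
  D : ∀ c ∈ A, ∀ x ∈ W, nm (gp G (p c)) (zt (gp G (p c)) ν (ρ c) W) x ≤ ξ
  Dh : ∀ c ∈ A, ∀ s ∈ A, c < s → ∀ y, ρ s y ≠ 0 →
    nm (gp G (p c)) (zt (gp G (p c)) ν (ρ c) W) y ≤ ξ
  at' : ∀ c ∈ A, ∀ x ∈ W, ν x ≤ ξ * nm (gp G (p c)) (ρ c) x
  /-- nodes and later hubs have small weight as hubs (for instance weight `0`) -/
  qat : ∀ c ∈ A, ∀ x ∈ W, ∀ y, (gp G (p c)).Adj x y → (y ∈ W ∨ ∃ s ∈ A, c < s ∧ ρ s y ≠ 0) →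
    ρ c y ≤ ξ * nm (gp G (p c)) (ρ c) x

/-- The weight of the links of the mates via the hubs `r` of the stage with the graph `H` inside
`W`: the sum over the paths `x, y, x'` with `x, x' ∈ W` of the product of the `ell` for the
measures `ρ c`, `c ∈ S`, in the graphs `Gs c`. -/
noncomputable def lkp {V : Type} [Fintype V] (H : SimpleGraph V) (Gs : ℕ → SimpleGraph V)
    (ν r : V → ℝ) (ρ : ℕ → V → ℝ) (S : Finset ℕ) (W : Finset V) : ℝ :=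
  ∑ y, r y / nm H (zt H ν r W) y * ∑ x ∈ Finset.univ.filter (fun x => H.Adj y x),
    ∑ x' ∈ Finset.univ.filter (fun x' => H.Adj y x'),
      zt H ν r W x * zt H ν r W x' * ∏ c ∈ S, ell (Gs c) (ρ c) x x'

/-- All items `(S, s)` with `|S| = m` are unlinked, for all parts `W'` of the nodes which are not
small and all hub weights `q ≤ ρ s` which keep a part of the hubs of the nodes in `W'`. -/
def UnlkP {V ι : Type} [Fintype V] (G : SimpleGraph V) (p : ℕ → V → ι) (W : Finset V)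
    (ν : V → ℝ) (ρ : ℕ → V → ℝ) (A : Finset ℕ) (m : ℕ) (th c1 ε : ℝ) : Prop :=
  ∀ s ∈ A, ∀ S, S ⊆ A → (∀ c ∈ S, c < s) → S.card = m → ∀ W', W' ⊆ W →
    th * ms ν W ≤ ms ν W' → ∀ q : V → ℝ, (∀ y, 0 ≤ q y) → (∀ y, q y ≤ ρ s y) →
      (∀ x ∈ W', c1 * nm (gp G (p s)) (ρ s) x ≤ nm (gp G (p s)) q x) →
        lkp (gp G (p s)) (fun c => gp G (p c)) ν q ρ S W' ≤ ε * ms ν W'

/-- Module `PUJ`. -/
def StPUJ : Prop :=
  ∀ (M h m : ℕ) (F : ℝ), 1 ≤ F → ∃ (R : ℕ) (th c1 ε : ℝ), 0 < th ∧ 0 < c1 ∧ 0 < ε ∧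
    ∀ κ : ℝ, 0 < κ → ∃ ξ : ℝ, 0 < ξ ∧ ∀ (V ι : Type) [Fintype V] (G : SimpleGraph V)
      (p : ℕ → V → ι) (W : Finset V) (ν : V → ℝ) (ρ : ℕ → V → ℝ) (A : Finset ℕ),
      Frac G F → R ≤ A.card → UPp G p W ν ρ A ξ → κ ≤ ms ν W → UnlkP G p W ν ρ A m th c1 ε →
          ∃ φ : List (Fin M) → V, Tree G h M φ

end Pool.Agent.Lib.FGP
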