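import Pool.Agent.Lib.FGP.UDefs
import Pool.Agent.Lib.FGP.Thm

/-!
# Pools of unlinked stages on pairs
-/

set_option autoImplicit false

namespace Pool.Agent.Lib.FGP

open Finset Classical
open Pool.Agent.Lib.FracGS (nb wnb om TAdj wnb_eq_sum_ite wnb_nonneg om_nonneg om_le_left om_comm)
open Pool.Agent.Lib.GSR3 (Stab Tree)
open Pool.Agent.Lib.FGF (ms nm zt ell Frac stJen stRam)
open Pool.Agent.Lib.FGF.UPoolAux (nm_eq nm_nonneg zt_nonneg mu Dw_eq ell_nonneg ell_eq ell_le_one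
  pw pw_nonneg sum_pw sum_pw_one)
open Pool.Agent.Lib.FGF.UJAux (qJ qJ_nonneg qJ_le nm_mono flux lk_qJ_le)

namespace PUJ

variable {V ι : Type} [Fintype V] {G : SimpleGraph V} {p : ℕ → V → ι}

lemma lkp_eq (H : SimpleGraph V) (Gs : ℕ → SimpleGraph V) (ν r : V → ℝ) (ρ : ℕ → V → ℝ)
    (S : Finset ℕ) (W : Finset V) :
    lkp H Gs ν r ρ S W = ∑ t, pw H ν r W t * ∏ c ∈ S, ell (Gs c) (ρ c) t.2.1 t.2.2 := by
  rw [sum_pw (G := H) ν r W (fun x x' => ∏ c ∈ S, ell (Gs c) (ρ c) x x')]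
  rfl

/-- The links in the two interfaces. -/
lemma lamp_eq {H : SimpleGraph V} {Gs : ℕ → SimpleGraph V} {ν r : V → ℝ} {ρ : ℕ → V → ℝ} {W : Finset V} {c : ℕ} (hρ : ∀ v, 0 ≤ ρ c v)
    (hW : 0 < ms ν W) :
    ∑ x ∈ W, ∑ x' ∈ W, Pool.Agent.Lib.FGL.mt H W (mu ν W) r x x' * Pool.Agent.Lib.FGL.lk (Gs c) (ρ c) x x' =
      lkp H Gs ν r ρ {c} W / ms ν W := by
  rw [lkp_eq]
  simp only [Finset.prod_singleton]
  rw [sum_pw (G := H) ν r W (fun x x' => ell (Gs c) (ρ c) x x')]
  have h1 : ∀ x ∈ W, ∀ x' ∈ W, Pool.Agent.Lib.FGL.mt H W (mu ν W) r x x' * Pool.Agent.Lib.FGL.lk (Gs c) (ρ c) x x' =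
      ∑ y, r y / nm H (zt H ν r W) y * ((if H.Adj y x then zt H ν r W x else 0) *
        (if H.Adj y x' then zt H ν r W x' else 0) * ell (Gs c) (ρ c) x x') / ms ν W := by
    intro x hx x' hx'
    unfold Pool.Agent.Lib.FGL.mt om
    rw [Finset.sum_filter, Finset.sum_mul, Finset.sum_mul, Finset.sum_mul]
    refine Finset.sum_congr rfl fun y _ => ?_
    rw [← ell_eq hρ]
    by_cases ha : H.Adj x y
    · by_cases hb : H.Adj x' y
      · rw [if_pos ⟨ha, hb⟩, if_pos ha.symm, if_pos hb.symm, Dw_eq]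
        unfold zt mu Pool.Agent.Lib.FGL.aw
        rw [if_pos hx, if_pos hx, if_pos hx', if_pos hx']
        have e1 : wnb H univ r x = nm H r x := rfl
        have e2 : wnb H univ r x' = nm H r x' := rfl
        rw [e1, e2]
        field_simp
      · have hb' : ¬ H.Adj y x' := fun h => hb h.symm
        rw [if_neg (fun h => hb h.2), if_neg hb']
        ring
    · have ha' : ¬ H.Adj y x := fun h => ha h.symm
      rw [if_neg (fun h => ha h.1), if_neg ha']
      ring
  rw [Finset.sum_congr rfl fun x hx => Finset.sum_congr rfl fun x' hx' => h1 x hx x' hx']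
  rw [Finset.sum_congr rfl fun x _ => Finset.sum_comm, Finset.sum_comm, Finset.sum_div]
  refine Finset.sum_congr rfl fun y _ => ?_
  have h2 : ∀ x ∈ W, ∑ x' ∈ W, r y / nm H (zt H ν r W) y *
      ((if H.Adj y x then zt H ν r W x else 0) *
        (if H.Adj y x' then zt H ν r W x' else 0) * ell (Gs c) (ρ c) x x') / ms ν W =
      r y / nm H (zt H ν r W) y * (∑ x', (if H.Adj y x then zt H ν r W x else 0) *
        (if H.Adj y x' then zt H ν r W x' else 0) * ell (Gs c) (ρ c) x x') / ms ν W := by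
    intro x _
    rw [Finset.mul_sum, Finset.sum_div]
    refine Finset.sum_subset (Finset.subset_univ W) ?_
    intro x' _ hx'
    unfold zt
    rw [if_neg hx']
    simp
  rw [Finset.sum_congr rfl h2, ← Finset.sum_div, ← Finset.mul_sum]
  congr 2
  rw [Finset.sum_filter]
  have h3 : ∑ x ∈ W, ∑ x', (if H.Adj y x then zt H ν r W x else 0) *
        (if H.Adj y x' then zt H ν r W x' else 0) * ell (Gs c) (ρ c) x x' =
      ∑ x, ∑ x', (if H.Adj y x then zt H ν r W x else 0) *
        (if H.Adj y x' then zt H ν r W x' else 0) * ell (Gs c) (ρ c) x x' := by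
    refine Finset.sum_subset (Finset.subset_univ W) ?_
    intro x _ hx
    refine Finset.sum_eq_zero fun x' _ => ?_
    unfold zt
    rw [if_neg hx]
    simp
  rw [h3]
  refine Finset.sum_congr rfl fun x _ => ?_
  rw [Finset.sum_filter]
  by_cases h : H.Adj y x
  · rw [if_pos h, if_pos h]
    refine Finset.sum_congr rfl fun x' _ => ?_
    split_ifs <;> ring
  · rw [if_neg h, if_neg h]
    refine Finset.sum_eq_zero fun x' _ => ?_
    ring

/-- The common stable set. -/
lemma exists_Jp {F : ℝ} (hF : 1 ≤ F) (hG : Frac G F) {W : Finset V} {ν : V → ℝ}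
    {ρ : ℕ → V → ℝ} {A : Finset ℕ} (hν : ∀ x, 0 ≤ ν x) (hρ : ∀ c ∈ A, ∀ y, 0 ≤ ρ c y)
    (hap : ∀ c ∈ A, ∀ x ∈ W, 0 < nm (gp G (p c)) (ρ c) x) {r : ℕ} (hA : 0 < A.card)
    (hr : 4 * F * r ≤ A.card) :
    ∃ J : Finset V, Stab G J ∧ ∃ T, T ⊆ A ∧ T.card = r ∧ ∃ X, X ⊆ W ∧
      (∀ x ∈ X, ∀ c ∈ T, nm (gp G (p c)) (ρ c) x ≤ 2 * F * nm (gp G (p c)) (qJ (ρ c) J) x) ∧
      ms ν W ≤ 4 * F * 2 ^ A.card * ms ν X := by
  have hF0 : 0 < F := by linarith
  obtain ⟨J, hJ, hJw⟩ := hG (fun y => ∑ c ∈ A, ρ c y * nm (gp G (p c)) (zt (gp G (p c)) ν (ρ c) W) y) (by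
    intro y
    refine Finset.sum_nonneg fun c hc => mul_nonneg (hρ c hc y) ?_
    exact nm_nonneg (zt_nonneg hν (hρ c hc) W) y)
  set P : ℕ → V → ℝ := fun c x => nm (gp G (p c)) (qJ (ρ c) J) x / nm (gp G (p c)) (ρ c) x with hP
  have hP1 : ∀ c ∈ A, ∀ x ∈ W, P c x ≤ 1 := by
    intro c hc x hx
    rw [hP]
    exact (div_le_one (hap c hc x hx)).2 (nm_mono (qJ_le (hρ c hc) J) x)
  set T : V → Finset ℕ := fun x => A.filter fun c => nm (gp G (p c)) (ρ c) x ≤ 2 * F * nm (gp G (p c)) (qJ (ρ c) J) x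
    with hT
  have hmsW : ∀ X : Finset V, 0 ≤ ms ν X := fun X => Finset.sum_nonneg fun x _ => hν x
  -- the total weight
  have h1 : ∑ y, ∑ c ∈ A, ρ c y * nm (gp G (p c)) (zt (gp G (p c)) ν (ρ c) W) y = A.card * ms ν W := by
    rw [Finset.sum_comm]
    have h2 : ∀ c ∈ A, ∑ y, ρ c y * nm (gp G (p c)) (zt (gp G (p c)) ν (ρ c) W) y = ms ν W := by
      intro c hc
      rw [flux (G := gp G (p c))]
      unfold ms
      refine Finset.sum_congr rfl fun x hx => ?_
      rw [div_self (hap c hc x hx).ne', mul_one]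
    rw [Finset.sum_congr rfl h2, Finset.sum_const, nsmul_eq_mul]
  have h2 : ∑ y ∈ J, ∑ c ∈ A, ρ c y * nm (gp G (p c)) (zt (gp G (p c)) ν (ρ c) W) y =
      ∑ x ∈ W, ν x * ∑ c ∈ A, P c x := by
    rw [Finset.sum_comm]
    have h3 : ∀ c ∈ A, ∑ y ∈ J, ρ c y * nm (gp G (p c)) (zt (gp G (p c)) ν (ρ c) W) y = ∑ x ∈ W, ν x * P c x := by
      intro c hc
      rw [← flux (G := gp G (p c)) ν (ρ c) (qJ (ρ c) J) W]
      rw [← Finset.sum_subset (Finset.subset_univ J)]
      · refine Finset.sum_congr rfl fun y hy => ?_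
        unfold qJ
        rw [if_pos hy]
      · intro y _ hy
        unfold qJ
        rw [if_neg hy, zero_mul]
    rw [Finset.sum_congr rfl h3, Finset.sum_comm]
    refine Finset.sum_congr rfl fun x _ => ?_
    rw [Finset.mul_sum]
  have h3 : ∀ x ∈ W, ∑ c ∈ A, P c x ≤ (T x).card + A.card / (2 * F) := by
    intro x hx
    rw [← Finset.sum_filter_add_sum_filter_not A
      (fun c => nm (gp G (p c)) (ρ c) x ≤ 2 * F * nm (gp G (p c)) (qJ (ρ c) J) x)]
    refine add_le_add ?_ ?_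
    · calc ∑ c ∈ A.filter (fun c => nm (gp G (p c)) (ρ c) x ≤ 2 * F * nm (gp G (p c)) (qJ (ρ c) J) x), P c x
          ≤ ∑ c ∈ A.filter (fun c => nm (gp G (p c)) (ρ c) x ≤ 2 * F * nm (gp G (p c)) (qJ (ρ c) J) x), (1 : ℝ) :=
            Finset.sum_le_sum fun c hc => hP1 c (Finset.mem_filter.1 hc).1 x hx
        _ = (T x).card := by
            rw [Finset.sum_const, nsmul_eq_mul, mul_one]
    · calc ∑ c ∈ A.filter (fun c => ¬ nm (gp G (p c)) (ρ c) x ≤ 2 * F * nm (gp G (p c)) (qJ (ρ c) J) x), P c x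
          ≤ ∑ c ∈ A.filter (fun c => ¬ nm (gp G (p c)) (ρ c) x ≤ 2 * F * nm (gp G (p c)) (qJ (ρ c) J) x),
              (1 / (2 * F)) := by
            refine Finset.sum_le_sum fun c hc => ?_
            obtain ⟨hc1, hc2⟩ := Finset.mem_filter.1 hc
            rw [hP]
            dsimp only
            rw [div_le_div_iff₀ (hap c hc1 x hx) (by positivity)]
            push Not at hc2
            linarith
        _ ≤ ∑ _c ∈ A, (1 / (2 * F)) :=
            Finset.sum_le_sum_of_subset_of_nonneg (Finset.filter_subset _ _)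
              fun _ _ _ => by positivity
        _ = A.card / (2 * F) := by
            rw [Finset.sum_const, nsmul_eq_mul]
            ring
  have hAc : (0 : ℝ) < A.card := by exact_mod_cast hA
  have h4 : (A.card : ℝ) * ms ν W ≤ 2 * F * ∑ x ∈ W, ν x * (T x).card := by
    have h5 : (A.card : ℝ) * ms ν W ≤ F * ∑ x ∈ W, ν x * ((T x).card + A.card / (2 * F)) := by
      rw [← h1]
      refine hJw.trans ?_
      rw [h2]
      refine mul_le_mul_of_nonneg_left ?_ hF0.le
      exact Finset.sum_le_sum fun x hx => mul_le_mul_of_nonneg_left (h3 x hx) (hν x)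
    have h6 : ∑ x ∈ W, ν x * ((T x).card + A.card / (2 * F)) =
        ∑ x ∈ W, ν x * (T x).card + A.card / (2 * F) * ms ν W := by
      unfold ms
      rw [Finset.mul_sum, ← Finset.sum_add_distrib]
      refine Finset.sum_congr rfl fun x _ => ?_
      ring
    rw [h6] at h5
    have h7 : F * (A.card / (2 * F) * ms ν W) = A.card * ms ν W / 2 := by
      field_simp
    nlinarith
  set X1 := W.filter (fun x => r ≤ (T x).card) with hX1
  have hTA : ∀ x, ((T x).card : ℝ) ≤ A.card := fun x => by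
    exact_mod_cast Finset.card_le_card (Finset.filter_subset _ _)
  have h5 : ∑ x ∈ W, ν x * (T x).card ≤ A.card * ms ν X1 + r * ms ν W := by
    rw [← Finset.sum_filter_add_sum_filter_not W (fun x => r ≤ (T x).card)]
    refine add_le_add ?_ ?_
    · unfold ms
      rw [Finset.mul_sum]
      refine Finset.sum_le_sum fun x _ => ?_
      rw [mul_comm]
      exact mul_le_mul_of_nonneg_right (hTA x) (hν x)
    · calc ∑ x ∈ W.filter (fun x => ¬ r ≤ (T x).card), ν x * (T x).card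
          ≤ ∑ x ∈ W.filter (fun x => ¬ r ≤ (T x).card), r * ν x := by
            refine Finset.sum_le_sum fun x hx => ?_
            have h6 := (Finset.mem_filter.1 hx).2
            rw [mul_comm]
            refine mul_le_mul_of_nonneg_right ?_ (hν x)
            exact_mod_cast (not_le.1 h6).le
        _ ≤ ∑ x ∈ W, r * ν x :=
            Finset.sum_le_sum_of_subset_of_nonneg (Finset.filter_subset _ _)
              fun x _ _ => mul_nonneg (Nat.cast_nonneg _) (hν x)
        _ = r * ms ν W := by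
            unfold ms
            rw [Finset.mul_sum]
  have h6 : ms ν W ≤ 4 * F * ms ν X1 := by
    have h7 : (A.card : ℝ) * ms ν W ≤ 2 * F * (A.card * ms ν X1 + r * ms ν W) :=
      h4.trans (mul_le_mul_of_nonneg_left h5 (by positivity))
    have h8 : 2 * F * (r * ms ν W) ≤ A.card * ms ν W / 2 := by
      have := mul_le_mul_of_nonneg_right hr (hmsW W)
      linarith
    have h9 : (A.card : ℝ) * ms ν W ≤ A.card * (4 * F * ms ν X1) := by
      nlinarith
    exact le_of_mul_le_mul_left h9 hAc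
  -- pigeonhole
  have h7 : ms ν X1 ≤ ∑ S ∈ A.powersetCard r, ms ν (W.filter fun x => S ⊆ T x) := by
    unfold ms
    have h8 : ∀ x ∈ X1, ν x ≤ ∑ S ∈ A.powersetCard r, if S ⊆ T x then ν x else 0 := by
      intro x hx
      obtain ⟨S, hS, hSc⟩ := Finset.exists_subset_card_eq (Finset.mem_filter.1 hx).2
      refine le_trans (le_of_eq ?_) (Finset.single_le_sum
        (f := fun S => if S ⊆ T x then ν x else 0) (fun S' _ => ?_)
        (Finset.mem_powersetCard.2 ⟨hS.trans (Finset.filter_subset _ _), hSc⟩))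
      · rw [if_pos hS]
      · split_ifs
        · exact hν x
        · exact le_rfl
    refine (Finset.sum_le_sum h8).trans ?_
    rw [Finset.sum_comm]
    refine Finset.sum_le_sum fun S _ => ?_
    rw [Finset.sum_filter (s := W) (fun x => S ⊆ T x)]
    refine Finset.sum_le_sum_of_subset_of_nonneg (Finset.filter_subset _ _) fun x _ _ => ?_
    split_ifs
    · exact hν x
    · exact le_rfl
  have hne : (A.powersetCard r).Nonempty := by
    rw [Finset.powersetCard_nonempty]
    have h8 : (r : ℝ) ≤ A.card := by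
      have h9 : (r : ℝ) ≤ 4 * F * r := by
        have : (0 : ℝ) ≤ r := Nat.cast_nonneg _
        nlinarith
      linarith
    exact_mod_cast h8
  obtain ⟨S, hS, hSmax⟩ := Finset.exists_max_image (A.powersetCard r)
    (fun S => ms ν (W.filter fun x => S ⊆ T x)) hne
  obtain ⟨hSA, hSc⟩ := Finset.mem_powersetCard.1 hS
  refine ⟨J, hJ, S, hSA, hSc, W.filter fun x => S ⊆ T x, Finset.filter_subset _ _, ?_, ?_⟩
  · intro x hx c hc
    exact (Finset.mem_filter.1 ((Finset.mem_filter.1 hx).2 hc)).2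
  · have h8 : ms ν X1 ≤ 2 ^ A.card * ms ν (W.filter fun x => S ⊆ T x) := by
      refine h7.trans ((Finset.sum_le_card_nsmul _ _ _ fun S' hS' => hSmax S' hS').trans ?_)
      rw [nsmul_eq_mul]
      refine mul_le_mul_of_nonneg_right ?_ (hmsW _)
      have h9 : (A.powersetCard r).card ≤ 2 ^ A.card := by
        rw [Finset.card_powersetCard]
        exact Nat.choose_le_two_pow _ _
      exact_mod_cast h9
    calc ms ν W ≤ 4 * F * ms ν X1 := h6
      _ ≤ 4 * F * (2 ^ A.card * ms ν (W.filter fun x => S ⊆ T x)) :=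
          mul_le_mul_of_nonneg_left h8 (by positivity)
      _ = 4 * F * 2 ^ A.card * ms ν (W.filter fun x => S ⊆ T x) := by ring

/-- The system of levels. -/
lemma lsysP {F : ℝ} (hF : 1 ≤ F) {W X J : Finset V} {ν : V → ℝ} {ρ : ℕ → V → ℝ}
    {A : Finset ℕ} {ξ xi b : ℝ} (hS : UPp G p W ν ρ A ξ) (hJ : Stab G J) (hXW : X ⊆ W)
    {T : Finset ℕ} (hT : T ⊆ A)
    (hX : ∀ x ∈ X, ∀ c ∈ T, nm (gp G (p c)) (ρ c) x ≤ 2 * F * nm (gp G (p c)) (qJ (ρ c) J) x) (hb : 0 < b)
    (hbX : b ≤ ms ν X) (hξ : 0 ≤ ξ) (hxi1 : 2 * F * ξ ≤ xi) (hxi2 : 2 * F * ξ ≤ xi * b) {r : ℕ}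
    {s : ℕ → ℕ} (hs : ∀ i < r, s i ∈ T) (hd : ∀ i j, i < j → j < r → s j < s i) {e1 : ℝ}
    (hl : ∀ i j, i < j → j < r →
      2 * F * lkp (gp G (p (s i))) (fun c => gp G (p c)) ν (qJ (ρ (s i)) J) ρ {s j} X ≤ e1 * ms ν X) :
    PSys G (fun i => p (s i)) X (mu ν X) r J (fun i => qJ (ρ (s i)) J) xi e1 := by
  have hF0 : 0 < F := by linarith
  have hms : 0 < ms ν X := lt_of_lt_of_le hb hbX
  have hsA : ∀ i < r, s i ∈ A := fun i hi => hT (hs i hi)
  have e0 : ∀ (H : SimpleGraph V) (q : V → ℝ) (v : V), Pool.Agent.Lib.FGL.aw H q v = nm H q v :=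
    fun _ _ _ => rfl
  have hqpos : ∀ i < r, ∀ x ∈ X, 0 < nm (gp G (p (s i))) (qJ (ρ (s i)) J) x := by
    intro i hi x hx
    have h1 := hX x hx (s i) (hs i hi)
    have h2 := hS.ap (s i) (hsA i hi) x (hXW hx)
    by_contra h
    push Not at h
    have : 2 * F * nm (gp G (p (s i))) (qJ (ρ (s i)) J) x ≤ 0 :=
      mul_nonpos_of_nonneg_of_nonpos (by positivity) h
    linarith
  have hxi0 : 0 ≤ xi := le_trans (by positivity) hxi1
  -- the bound for `D`
  have hD : ∀ i < r, ∀ v, nm (gp G (p (s i))) (zt (gp G (p (s i))) ν (ρ (s i)) W) v ≤ ξ →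
      Pool.Agent.Lib.FGL.Dw (gp G (p (s i))) X (mu ν X) (qJ (ρ (s i)) J) v ≤ xi := by
    intro i hi v hv
    rw [Dw_eq, div_le_iff₀ hms]
    have h1 : nm (gp G (p (s i))) (zt (gp G (p (s i))) ν (qJ (ρ (s i)) J) X) v ≤ 2 * F * nm (gp G (p (s i))) (zt (gp G (p (s i))) ν (ρ (s i)) W) v := by
      rw [nm_eq, nm_eq, Finset.mul_sum]
      refine Finset.sum_le_sum fun u _ => ?_
      by_cases ha : (gp G (p (s i))).Adj v u
      · rw [if_pos ha, if_pos ha]
        unfold zt
        by_cases hu : u ∈ X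
        · rw [if_pos hu, if_pos (hXW hu)]
          have h2 := hqpos i hi u hu
          have h3 := hS.ap (s i) (hsA i hi) u (hXW hu)
          rw [← mul_div_assoc, div_le_div_iff₀ h2 h3]
          have h4 := mul_le_mul_of_nonneg_left (hX u hu (s i) (hs i hi)) (hS.ν0 u)
          linarith
        · rw [if_neg hu]
          split_ifs
          · have := div_nonneg (hS.ν0 u) (hS.ap (s i) (hsA i hi) u ‹_›).le
            positivity
          · simp
      · rw [if_neg ha, if_neg ha, mul_zero]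
    calc nm (gp G (p (s i))) (zt (gp G (p (s i))) ν (qJ (ρ (s i)) J) X) v ≤ 2 * F * nm (gp G (p (s i))) (zt (gp G (p (s i))) ν (ρ (s i)) W) v := h1
      _ ≤ 2 * F * ξ := mul_le_mul_of_nonneg_left hv (by positivity)
      _ ≤ xi * b := hxi2
      _ ≤ xi * ms ν X := mul_le_mul_of_nonneg_left hbX hxi0
  have hqρ : ∀ i < r, ∀ y, qJ (ρ (s i)) J y ≠ 0 → ρ (s i) y ≠ 0 := by
    intro i hi y hy h
    apply hy
    unfold qJ
    rw [h, ite_self]
  constructor
  · intro i j hij hj x y hxy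
    exact hS.ref (s j) (hsA j hj) (s i) (hsA i (hij.trans hj)) (hd i j hij hj) x y hxy
  · intro x
    unfold mu
    split_ifs
    · exact div_nonneg (hS.ν0 x) hms.le
    · exact le_rfl
  · intro x hx
    unfold mu
    rw [if_neg hx]
  · unfold mu
    rw [Finset.sum_congr rfl fun x hx => if_pos hx, ← Finset.sum_div]
    exact div_self hms.ne'
  · intro i hi y
    exact qJ_nonneg (hS.ρ0 (s i) (hsA i hi)) J y
  · intro i hi
    exact (Finset.sum_le_sum fun y _ => qJ_le (hS.ρ0 (s i) (hsA i hi)) J y).trans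
      (hS.ρ1 (s i) (hsA i hi))
  · intro i _ y hy
    exact if_neg hy
  · exact hJ
  · intro i hi x hx
    exact hqpos i hi x hx
  · intro i hi w hw
    exact hD i hi w (hS.D (s i) (hsA i hi) w (hXW hw))
  · intro i j hij hj y hy
    exact hD j hj y (hS.Dh (s j) (hsA j hj) (s i) (hsA i (hij.trans hj)) (hd i j hij hj) y
      (hqρ i (hij.trans hj) y hy))
  · intro i hi x hx
    rw [e0]
    unfold mu
    rw [if_pos hx, div_le_iff₀ hms]
    have h1 := hS.at' (s i) (hsA i hi) x (hXW hx)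
    have h2 := hX x hx (s i) (hs i hi)
    have h3 := hqpos i hi x hx
    calc ν x ≤ ξ * nm (gp G (p (s i))) (ρ (s i)) x := h1
      _ ≤ ξ * (2 * F * nm (gp G (p (s i))) (qJ (ρ (s i)) J) x) := mul_le_mul_of_nonneg_left h2 hξ
      _ = 2 * F * ξ * nm (gp G (p (s i))) (qJ (ρ (s i)) J) x := by ring
      _ ≤ xi * b * nm (gp G (p (s i))) (qJ (ρ (s i)) J) x := mul_le_mul_of_nonneg_right hxi2 h3.le
      _ ≤ xi * ms ν X * nm (gp G (p (s i))) (qJ (ρ (s i)) J) x :=
          mul_le_mul_of_nonneg_right (mul_le_mul_of_nonneg_left hbX hxi0) h3.le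
      _ = xi * nm (gp G (p (s i))) (qJ (ρ (s i)) J) x * ms ν X := by ring
  · intro j hj x hx y hxy hy
    rw [e0]
    have h1 : ρ (s j) y ≤ ξ * nm (gp G (p (s j))) (ρ (s j)) x := by
      refine hS.qat (s j) (hsA j hj) x (hXW hx) y hxy ?_
      rcases hy with hy | ⟨i, hi, hy⟩
      · exact Or.inl (hXW hy)
      · exact Or.inr ⟨s i, hsA i (hi.trans hj), hd i j hi hj, hqρ i (hi.trans hj) y hy⟩
    have h2 := hX x hx (s j) (hs j hj)
    have h3 := hqpos j hj x hx
    calc qJ (ρ (s j)) J y ≤ ρ (s j) y := qJ_le (hS.ρ0 (s j) (hsA j hj)) J y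
      _ ≤ ξ * nm (gp G (p (s j))) (ρ (s j)) x := h1
      _ ≤ ξ * (2 * F * nm (gp G (p (s j))) (qJ (ρ (s j)) J) x) := mul_le_mul_of_nonneg_left h2 hξ
      _ = 2 * F * ξ * nm (gp G (p (s j))) (qJ (ρ (s j)) J) x := by ring
      _ ≤ xi * nm (gp G (p (s j))) (qJ (ρ (s j)) J) x := mul_le_mul_of_nonneg_right hxi1 h3.le
  · intro i j hij hj
    have hi := hij.trans hj
    have h1 : ∑ x ∈ X, ∑ x' ∈ X, Pool.Agent.Lib.FGL.mt (gp G (p (s i))) X (mu ν X) (qJ (ρ (s i)) J) x x' *
        Pool.Agent.Lib.FGL.lk (gp G (p (s j))) (qJ (ρ (s j)) J) x x' ≤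
        2 * F * ∑ x ∈ X, ∑ x' ∈ X, Pool.Agent.Lib.FGL.mt (gp G (p (s i))) X (mu ν X) (qJ (ρ (s i)) J) x x' *
          Pool.Agent.Lib.FGL.lk (gp G (p (s j))) (ρ (s j)) x x' := by
      rw [Finset.mul_sum]
      refine Finset.sum_le_sum fun x hx => ?_
      rw [Finset.mul_sum]
      refine Finset.sum_le_sum fun x' hx' => ?_
      have h2 : 0 ≤ Pool.Agent.Lib.FGL.mt (gp G (p (s i))) X (mu ν X) (qJ (ρ (s i)) J) x x' := by
        unfold Pool.Agent.Lib.FGL.mt
        have hq := qJ_nonneg (hS.ρ0 (s i) (hsA i hi)) J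
        have hmu : ∀ x, 0 ≤ mu ν X x := by
          intro x
          unfold mu
          split_ifs
          · exact div_nonneg (hS.ν0 x) hms.le
          · exact le_rfl
        have haw : ∀ x, 0 ≤ Pool.Agent.Lib.FGL.aw (gp G (p (s i))) (qJ (ρ (s i)) J) x := fun x => nm_nonneg hq x
        have hDw : ∀ y, 0 ≤ Pool.Agent.Lib.FGL.Dw (gp G (p (s i))) X (mu ν X) (qJ (ρ (s i)) J) y := fun y =>
          Finset.sum_nonneg fun v _ => div_nonneg (hmu v) (haw v)
        refine mul_nonneg (mul_nonneg (Finset.sum_nonneg fun y _ => ?_) ?_) ?_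
        · exact div_nonneg (hq y) (hDw y)
        · exact div_nonneg (hmu x) (haw x)
        · exact div_nonneg (hmu x') (haw x')
      have h3 := lk_qJ_le (hS.ρ0 (s j) (hsA j hj)) J hF
        (hS.ap (s j) (hsA j hj) x (hXW hx)) (hS.ap (s j) (hsA j hj) x' (hXW hx'))
        (hX x hx (s j) (hs j hj)) (hX x' hx' (s j) (hs j hj))
      calc Pool.Agent.Lib.FGL.mt (gp G (p (s i))) X (mu ν X) (qJ (ρ (s i)) J) x x' * Pool.Agent.Lib.FGL.lk (gp G (p (s j))) (qJ (ρ (s j)) J) x x'
          ≤ Pool.Agent.Lib.FGL.mt (gp G (p (s i))) X (mu ν X) (qJ (ρ (s i)) J) x x' *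
            (2 * F * Pool.Agent.Lib.FGL.lk (gp G (p (s j))) (ρ (s j)) x x') := mul_le_mul_of_nonneg_left h3 h2
        _ = 2 * F * (Pool.Agent.Lib.FGL.mt (gp G (p (s i))) X (mu ν X) (qJ (ρ (s i)) J) x x' *
            Pool.Agent.Lib.FGL.lk (gp G (p (s j))) (ρ (s j)) x x') := by ring
    refine h1.trans ?_
    rw [lamp_eq (H := gp G (p (s i))) (Gs := fun c => gp G (p c)) (ν := ν) (r := qJ (ρ (s i)) J) (ρ := ρ) (W := X) (c := s j)
      (hS.ρ0 (s j) (hsA j hj)) hms, ← mul_div_assoc, div_le_iff₀ hms]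
    exact hl i j hij hj

end PUJ

open PUJ in
/-- Module `PUJ`. -/
theorem stPUJ : StPUJ := by
  intro M h m F hF
  have hF0 : 0 < F := by linarith
  obtain ⟨r, e1, xi, he1, hxi, hL⟩ := stPThm M h
  set e : ℝ := min (e1 / (2 * F)) 1 with he
  have he0 : 0 < e := lt_min (by positivity) one_pos
  obtain ⟨RJ, hJe⟩ := stJen m e he0 (min_le_right _ _)
  obtain ⟨r', hR⟩ := stRam 2 2 (r + RJ + 1) (by norm_num)
  set R : ℕ := ⌈4 * F * r'⌉₊ + 1 with hRdef
  set th : ℝ := 1 / (4 * F * 2 ^ R) with hth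
  have hth0 : 0 < th := by positivity
  refine ⟨R, th, 1 / (2 * F), e ^ m / 2, hth0, by positivity, by positivity, ?_⟩
  intro κ hκ
  set b : ℝ := th * κ with hb
  have hb0 : 0 < b := mul_pos hth0 hκ
  refine ⟨min (xi / (2 * F)) (xi * b / (2 * F)), lt_min (by positivity) (by positivity), ?_⟩
  intro V ι _ G p W ν ρ A0 hG hA0 hS0 hκW hU0
  set ξ : ℝ := min (xi / (2 * F)) (xi * b / (2 * F)) with hξdef
  have hξ0 : 0 ≤ ξ := le_min (by positivity) (by positivity)
  have hξ1 : 2 * F * ξ ≤ xi := by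
    have := min_le_left (xi / (2 * F)) (xi * b / (2 * F))
    rw [← hξdef, le_div_iff₀ (by positivity)] at this
    linarith
  have hξ2 : 2 * F * ξ ≤ xi * b := by
    have := min_le_right (xi / (2 * F)) (xi * b / (2 * F))
    rw [← hξdef, le_div_iff₀ (by positivity)] at this
    linarith
  -- exactly `R` stages
  obtain ⟨A, hAA, hAc⟩ := Finset.exists_subset_card_eq hA0
  have hS : UPp G p W ν ρ A ξ :=
    ⟨fun c hc s hs => hS0.ref c (hAA hc) s (hAA hs), hS0.ν0, fun c hc => hS0.ρ0 c (hAA hc), fun c hc => hS0.ρ1 c (hAA hc),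
      fun c hc => hS0.ap c (hAA hc), fun c hc => hS0.D c (hAA hc),
      fun c hc s hs => hS0.Dh c (hAA hc) s (hAA hs), fun c hc => hS0.at' c (hAA hc),
      fun c hc x hx y hxy hy => hS0.qat c (hAA hc) x hx y hxy (by
        rcases hy with hy | ⟨s, hs, h1, h2⟩
        · exact Or.inl hy
        · exact Or.inr ⟨s, hAA hs, h1, h2⟩)⟩
  have hR4 : 4 * F * r' ≤ A.card := by
    rw [hAc, hRdef]
    push_cast
    have := Nat.le_ceil (4 * F * (r' : ℝ))
    linarith
  obtain ⟨J, hJ, T, hTA, hTc, X, hXW, hX, hXms⟩ := exists_Jp hF hG hS.ν0 hS.ρ0 hS.ap (by omega) hR4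
  have hthX : th * ms ν W ≤ ms ν X := by
    rw [hth, one_div, inv_mul_le_iff₀ (by positivity), ← hAc]
    exact hXms
  have hbX : b ≤ ms ν X := (mul_le_mul_of_nonneg_left hκW hth0.le).trans hthX
  have hms : 0 < ms ν X := lt_of_lt_of_le hb0 hbX
  set lin : ℕ → ℕ → Prop := fun c s => e * ms ν X ≤ lkp (gp G (p s)) (fun c => gp G (p c)) ν (qJ (ρ s) J) ρ {c} X with hlin
  obtain ⟨B, hBT, hBc, i0, hi0⟩ := hR
    (fun S => if ∃ c s, c < s ∧ S = {c, s} ∧ lin c s then 1 else 0) T
    (fun S => by split_ifs <;> norm_num) (by omega)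
  by_cases hi : i0 = 1
  · -- all pairs are linked
    subst hi
    have hlk : ∀ c ∈ B, ∀ s ∈ B, c < s → lin c s := by
      intro c hc s hs hcs
      have h1 := hi0 {c, s} (by
        intro z hz
        rw [Finset.mem_insert, Finset.mem_singleton] at hz
        rcases hz with rfl | rfl
        · exact hc
        · exact hs) (Finset.card_pair hcs.ne)
      have h2 : ∃ c' s', c' < s' ∧ ({c, s} : Finset ℕ) = {c', s'} ∧ lin c' s' := by
        by_contra h3
        have h4 : (if ∃ c' s', c' < s' ∧ ({c, s} : Finset ℕ) = {c', s'} ∧ lin c' s' then 1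
          else 0) = 1 := h1
        rw [if_neg h3] at h4
        exact absurd h4 (by norm_num)
      obtain ⟨c', s', hcs', he, hl⟩ := h2
      have e1' : c ∈ ({c', s'} : Finset ℕ) := by rw [← he]; simp
      have e2' : s ∈ ({c', s'} : Finset ℕ) := by rw [← he]; simp
      rw [Finset.mem_insert, Finset.mem_singleton] at e1' e2'
      rcases e1' with rfl | rfl <;> rcases e2' with rfl | rfl
      · omega
      · exact hl
      · omega
      · omega
    have hBne : B.Nonempty := by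
      rw [← Finset.card_pos, hBc]
      omega
    set s := B.max' hBne with hs
    have hsB : s ∈ B := B.max'_mem hBne
    have hsT : s ∈ T := hBT hsB
    have hsA : s ∈ A := hTA hsT
    have hq0 := qJ_nonneg (hS.ρ0 s hsA) J
    have hpX : ∀ x ∈ X, 0 < nm (gp G (p s)) (qJ (ρ s) J) x := by
      intro x hx
      have h1 := hX x hx s hsT
      have h2 := hS.ap s hsA x (hXW hx)
      by_contra h
      push Not at h
      have : 2 * F * nm (gp G (p s)) (qJ (ρ s) J) x ≤ 0 :=
        mul_nonpos_of_nonneg_of_nonpos (by positivity) h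
      linarith
    have hsum := sum_pw_one (G := gp G (p s)) (ν := ν) hpX
    obtain ⟨S, hSB, hSc, hSp⟩ := hJe (V × V × V) (pw (gp G (p s)) ν (qJ (ρ s) J) X)
      (fun c t => ell (gp G (p c)) (ρ c) t.2.1 t.2.2) (B.erase s)
      (fun t => pw_nonneg hS.ν0 hq0 _ t)
      (fun c hc t => by
        have hcA : c ∈ A := hTA (hBT (Finset.mem_of_mem_erase hc))
        exact ⟨ell_nonneg (hS.ρ0 c hcA) _ _, ell_le_one (hS.ρ0 c hcA) _ _⟩)
      (by rw [hsum]; exact hms)
      (by rw [Finset.card_erase_of_mem hsB, hBc]; omega)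
      (fun c hc => by
        rw [hsum]
        have hcB := Finset.mem_of_mem_erase hc
        have hcs : c < s := lt_of_le_of_ne (B.le_max' c hcB) (Finset.ne_of_mem_erase hc)
        have h1 : e * ms ν X ≤ lkp (gp G (p s)) (fun c => gp G (p c)) ν (qJ (ρ s) J) ρ {c} X := hlk c hcB s hsB hcs
        rw [lkp_eq] at h1
        simpa only [Finset.prod_singleton] using h1)
    have hSA : S ⊆ A := fun c hc => hTA (hBT (Finset.mem_of_mem_erase (hSB hc)))
    have h1 := hU0 s (hAA hsA) S (hSA.trans hAA) (fun c hc =>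
      lt_of_le_of_ne (B.le_max' c (Finset.mem_of_mem_erase (hSB hc)))
        (Finset.ne_of_mem_erase (hSB hc))) hSc X hXW hthX (qJ (ρ s) J) hq0
      (qJ_le (hS.ρ0 s hsA) J) (fun x hx => by
        rw [one_div, inv_mul_le_iff₀ (by positivity)]
        exact hX x hx s hsT)
    rw [lkp_eq] at h1
    rw [hsum] at hSp
    linarith
  · -- no pair is linked
    have hlk : ∀ c ∈ B, ∀ s ∈ B, c < s → ¬ lin c s := by
      intro c hc s hs hcs hl
      have h1 := hi0 {c, s} (by
        intro z hz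
        rw [Finset.mem_insert, Finset.mem_singleton] at hz
        rcases hz with rfl | rfl
        · exact hc
        · exact hs) (Finset.card_pair hcs.ne)
      have h4 : (if ∃ c' s', c' < s' ∧ ({c, s} : Finset ℕ) = {c', s'} ∧ lin c' s' then 1
          else 0) = i0 := h1
      rw [if_pos ⟨c, s, hcs, rfl, hl⟩] at h4
      exact hi h4.symm
    -- the levels
    set s : ℕ → ℕ := fun i => if hi : i < r + RJ + 1 then
      B.orderEmbOfFin hBc ⟨r + RJ - i, by omega⟩ else 0 with hsdef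
    have hsB : ∀ i < r, s i ∈ B := by
      intro i hi
      rw [hsdef]
      dsimp only
      rw [dif_pos (by omega)]
      exact B.orderEmbOfFin_mem hBc _
    have hdec : ∀ i j, i < j → j < r → s j < s i := by
      intro i j hij hj
      rw [hsdef]
      dsimp only
      rw [dif_pos (by omega), dif_pos (by omega)]
      apply (B.orderEmbOfFin hBc).strictMono
      rw [Fin.mk_lt_mk]
      omega
    have hsys := lsysP (e1 := e1) hF hS hJ hXW hTA hX hb0 hbX hξ0 hξ1 hξ2
      (fun i hi => hBT (hsB i hi)) hdec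
      (fun i j hij hj => by
        have h1 : ¬ (e * ms ν X ≤ lkp (gp G (p (s i))) (fun c => gp G (p c)) ν (qJ (ρ (s i)) J) ρ {s j} X) :=
          hlk (s j) (hsB j hj) (s i) (hsB i (by omega)) (hdec i j hij hj)
        rw [not_le] at h1
        have h2 : e ≤ e1 / (2 * F) := min_le_left _ _
        calc 2 * F * lkp (gp G (p (s i))) (fun c => gp G (p c)) ν (qJ (ρ (s i)) J) ρ {s j} X ≤ 2 * F * (e * ms ν X) :=
              mul_le_mul_of_nonneg_left h1.le (by positivity)
          _ ≤ 2 * F * (e1 / (2 * F) * ms ν X) := by gcongr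
          _ = e1 * ms ν X := by field_simp)
    exact hL V ι G _ X (mu ν X) J _ hsys

end Pool.Agent.Lib.FGP
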